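import Pool.Agent.Q119.TP.Theory
import Pool.Agent.H171R2.RupCore

/-!
# Certificates that a sequence of seven families is impossible for a transitive colouring
-/

set_option autoImplicit false

namespace Q119.TP

open Pool.Agent.H171R2.Rup

/-- variable: `gm (x i) (x j)` is the closed set number `A` -/
def gv (i j A : ℕ) : ℕ := (i * 7 + j) * 20 + A

/-- variable: the level in colour `t` of `x i, x j, x k` is at least `l` (`1 ≤ l ≤ 2`) -/
def lv (i j k t l : ℕ) : ℕ := 1000 + (((i * 7 + j) * 7 + k) * 2 + t) * 2 + (l - 1)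

/-- variable: the colour of `x i, x j, x k, x m` is `0` -/
def cv (i j k m : ℕ) : ℕ := 2400 + ((i * 7 + j) * 7 + k) * 7 + m

/-- a natural number as a colour -/
def colr (t : ℕ) : Fin 2 := if t = 0 then 0 else 1

/-- meaning of the variables -/
def val (f : ℕ → ℕ → ℕ → ℕ → Fin 2) (x : ℕ → ℕ) (v : ℕ) : Prop :=
  if v < 1000 then gm f (x (v / 20 / 7)) (x (v / 20 % 7)) = dm (v % 20)
  else if v < 2400 then
    (v - 1000) % 2 + 1 ≤ lev f (colr ((v - 1000) / 2 % 2)) (x ((v - 1000) / 4 / 7 / 7))
      (x ((v - 1000) / 4 / 7 % 7)) (x ((v - 1000) / 4 % 7))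
  else f (x ((v - 2400) / 7 / 7 / 7)) (x ((v - 2400) / 7 / 7 % 7)) (x ((v - 2400) / 7 % 7))
    (x ((v - 2400) % 7)) = 0

variable {f : ℕ → ℕ → ℕ → ℕ → Fin 2} {x : ℕ → ℕ}

theorem val_gv {i j A : ℕ} (hi : i < 7) (hj : j < 7) (hA : A < 20) :
    val f x (gv i j A) ↔ gm f (x i) (x j) = dm A := by
  have h0 : (i * 7 + j) * 20 + A < 1000 := by omega
  have h1 : ((i * 7 + j) * 20 + A) / 20 / 7 = i := by omega
  have h2 : ((i * 7 + j) * 20 + A) / 20 % 7 = j := by omega
  have h3 : ((i * 7 + j) * 20 + A) % 20 = A := by omega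
  unfold val gv
  rw [if_pos h0, h1, h2, h3]

theorem val_lv {i j k t l : ℕ} (hi : i < 7) (hj : j < 7) (hk : k < 7) (ht : t < 2) (hl : 1 ≤ l)
    (hl2 : l ≤ 2) : val f x (lv i j k t l) ↔ l ≤ lev f (colr t) (x i) (x j) (x k) := by
  have h0 : ¬ 1000 + (((i * 7 + j) * 7 + k) * 2 + t) * 2 + (l - 1) < 1000 := by omega
  have h0' : 1000 + (((i * 7 + j) * 7 + k) * 2 + t) * 2 + (l - 1) < 2400 := by omega
  have e : 1000 + (((i * 7 + j) * 7 + k) * 2 + t) * 2 + (l - 1) - 1000 =
      (((i * 7 + j) * 7 + k) * 2 + t) * 2 + (l - 1) := by omega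
  have h1 : ((((i * 7 + j) * 7 + k) * 2 + t) * 2 + (l - 1)) % 2 + 1 = l := by omega
  have h2 : ((((i * 7 + j) * 7 + k) * 2 + t) * 2 + (l - 1)) / 2 % 2 = t := by omega
  have h3 : ((((i * 7 + j) * 7 + k) * 2 + t) * 2 + (l - 1)) / 4 / 7 / 7 = i := by omega
  have h4 : ((((i * 7 + j) * 7 + k) * 2 + t) * 2 + (l - 1)) / 4 / 7 % 7 = j := by omega
  have h5 : ((((i * 7 + j) * 7 + k) * 2 + t) * 2 + (l - 1)) / 4 % 7 = k := by omega
  unfold val lv
  rw [if_neg h0, if_pos h0', e, h1, h2, h3, h4, h5]

theorem val_cv {i j k m : ℕ} (hi : i < 7) (hj : j < 7) (hk : k < 7) (hm : m < 7) :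
    val f x (cv i j k m) ↔ f (x i) (x j) (x k) (x m) = 0 := by
  have h0 : ¬ 2400 + ((i * 7 + j) * 7 + k) * 7 + m < 1000 := by omega
  have h0' : ¬ 2400 + ((i * 7 + j) * 7 + k) * 7 + m < 2400 := by omega
  have e : 2400 + ((i * 7 + j) * 7 + k) * 7 + m - 2400 = ((i * 7 + j) * 7 + k) * 7 + m := by omega
  have h1 : (((i * 7 + j) * 7 + k) * 7 + m) / 7 / 7 / 7 = i := by omega
  have h2 : (((i * 7 + j) * 7 + k) * 7 + m) / 7 / 7 % 7 = j := by omega
  have h3 : (((i * 7 + j) * 7 + k) * 7 + m) / 7 % 7 = k := by omega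
  have h4 : (((i * 7 + j) * 7 + k) * 7 + m) % 7 = m := by omega
  unfold val cv
  rw [if_neg h0, if_neg h0', e, h1, h2, h3, h4]

/-- the axioms -/
inductive Ax where
  | G (i j : ℕ)
  | LI (i j k A p : ℕ)
  | LO (i j k A p : ℕ)
  | LV (i j k t : ℕ)
  | C (i j k m t l : ℕ)
  | T (i j k m o d t : ℕ)

/-- the increasing test -/
def inc3 (i j k : ℕ) : Bool := Nat.blt i j && Nat.blt j k && Nat.blt k 7

/-- the quadruple obtained by deleting the point number `d` of five points -/
def tv (i j k m o d : ℕ) : ℕ :=
  if d = 1 then cv i k m o else if d = 2 then cv i j m o else cv i j k o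

/-- the clause of an axiom: positive and negative variables -/
def cl (W : List ℕ) : Ax → List ℕ × List ℕ
  | .G i j =>
    match Nat.blt i j && Nat.blt j 7 with
    | true => (((List.range 20).filter (fun A =>
        (W.getD j 0).testBit A && !(W.getD i 0).testBit A)).map (gv i j), [])
    | false => ([0], [0])
  | .LI i j k A p =>
    match inc3 i j k && Nat.blt A 20 && Nat.blt p 9 && !(dm A).testBit p with
    | true => ([], gv j k A :: ((match Nat.ble 1 (p / 3) with
        | true => [lv i j k 0 (p / 3)]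
        | false => []) ++ (match Nat.ble 1 (p % 3) with
        | true => [lv i j k 1 (p % 3)]
        | false => [])))
    | false => ([0], [0])
  | .LO i j k A p =>
    match inc3 i j k && Nat.blt A 20 && Nat.blt p 9 && (dm A).testBit p with
    | true => ((match Nat.blt (p / 3) 2 with
        | true => [lv i j k 0 (p / 3 + 1)]
        | false => []) ++ (match Nat.blt (p % 3) 2 with
        | true => [lv i j k 1 (p % 3 + 1)]
        | false => []), [gv i j A])
    | false => ([0], [0])
  | .LV i j k t =>
    match inc3 i j k && Nat.blt t 2 with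
    | true => ([lv i j k t 1], [lv i j k t 2])
    | false => ([0], [0])
  | .C i j k m t l =>
    match inc3 i j k && Nat.blt k m && Nat.blt m 7 && Nat.blt t 2 && Nat.blt l 3 with
    | true => ((match Nat.beq t 0 with
        | true => []
        | false => [cv i j k m]) ++ (match Nat.blt l 2 with
        | true => [lv j k m t (l + 1)]
        | false => []), (match Nat.beq t 0 with
        | true => [cv i j k m]
        | false => []) ++ (match Nat.ble 1 l with
        | true => [lv i j k t l]
        | false => []))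
    | false => ([0], [0])
  | .T i j k m o d t =>
    match inc3 i j k && Nat.blt k m && Nat.blt m o && Nat.blt o 7 with
    | true =>
      match Nat.beq t 0 with
      | true => ([tv i j k m o d], [cv i j k m, cv j k m o])
      | false => ([cv i j k m, cv j k m o], [tv i j k m o d])
    | false => ([0], [0])

theorem testBit_mask : ∀ (l : List ℕ) (v : ℕ), (mask l).testBit v = true ↔ v ∈ l := by
  intro l
  induction l with
  | nil => intro v; simp [mask]
  | cons a l ih =>
    intro v
    rw [mask]
    change (Nat.shiftLeft 1 a ||| mask l).testBit v = true ↔ _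
    rw [Nat.testBit_lor, Bool.or_eq_true, testBit_shl1, ih, decide_eq_true_iff, List.mem_cons]
    constructor
    · rintro (h | h)
      · exact Or.inl h.symm
      · exact Or.inr h
    · rintro (h | h)
      · exact Or.inl h.symm
      · exact Or.inr h

theorem valid_iff (vl : ℕ → Prop) (c : List ℕ × List ℕ) :
    Valid vl (mask c.1, mask c.2) ↔ (∃ v ∈ c.1, vl v) ∨ (∃ v ∈ c.2, ¬ vl v) := by
  unfold Valid
  simp only [testBit_mask]
  constructor
  · rintro ⟨v, h | h⟩
    · exact Or.inl ⟨v, h⟩
    · exact Or.inr ⟨v, h⟩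
  · rintro (⟨v, h⟩ | ⟨v, h⟩)
    · exact ⟨v, Or.inl h⟩
    · exact ⟨v, Or.inr h⟩

/-- insert the clauses of the axioms -/
def build {α : Type} (g : α → List ℕ × List ℕ) : List α → ℕ → Tr → Tr
  | [], _, t => t
  | a :: as, k, t => build g as (k + 1) (t.ins k (mask (g a).1) (mask (g a).2))

theorem build_valid {α : Type} (vl : ℕ → Prop) (g : α → List ℕ × List ℕ)
    (hg : ∀ a, Valid vl (mask (g a).1, mask (g a).2)) :
    ∀ (as : List α) (k : ℕ) (t : Tr), (∀ i, Valid vl (t.get i)) →
      ∀ i, Valid vl ((build g as k t).get i) := by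
  intro as
  induction as with
  | nil => intro k t h; exact h
  | cons a as ih =>
    intro k t h
    rw [build]
    exact ih _ _ (Tr.get_ins_valid vl _ _ (hg a) t k h)

theorem taut_valid (vl : ℕ → Prop) : (∃ v ∈ [0], vl v) ∨ (∃ v ∈ [0], ¬ vl v) := by
  by_cases h : vl 0
  · exact Or.inl ⟨0, by simp, h⟩
  · exact Or.inr ⟨0, by simp, h⟩

/-- the check of a certificate -/
def check (W : List ℕ) (as : List Ax) (st : List (List ℕ × List ℕ × List ℕ)) : Bool :=
  run (build (cl W) as 0 .nil) as.length st

/-- the colouring is transitive on `{1, …, N}` -/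
def Trans4 (f : ℕ → ℕ → ℕ → ℕ → Fin 2) (N : ℕ) : Prop :=
  ∀ a b c d e, 1 ≤ a → a < b → b < c → c < d → d < e → e ≤ N → ∀ i, f a b c d = i → f b c d e = i →
    f a c d e = i ∧ f a b d e = i ∧ f a b c e = i

/-- the data of a configuration of seven vertices -/
structure Conf (f : ℕ → ℕ → ℕ → ℕ → Fin 2) (N : ℕ) (W : List ℕ) (x : ℕ → ℕ) : Prop where
  no : NoPath f N
  tr : Trans4 f N
  pos : ∀ i < 7, 1 ≤ x i
  le : ∀ i < 7, x i ≤ N
  inc : ∀ i j, i < j → j < 7 → x i < x j
  fam : ∀ i < 7, hm f (x i) = W.getD i 0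

theorem fin2 (a : Fin 2) (h : a ≠ 0) : a = 1 := by
  revert a
  decide

theorem cl_valid {N : ℕ} {W : List ℕ} (H : Conf f N W x) (a : Ax) :
    (∃ v ∈ (cl W a).1, val f x v) ∨ (∃ v ∈ (cl W a).2, ¬ val f x v) := by
  cases a with
  | G i j =>
    rw [cl]
    split
    · rename_i h
      simp only [Bool.and_eq_true, Nat.blt_eq] at h
      obtain ⟨A, hA, h1, h2, h3⟩ := exists_gm H.no (H.pos i (by omega)) (H.inc i j h.1 h.2)
        (H.le j h.2)
      left
      refine ⟨gv i j A, ?_, ?_⟩
      · refine List.mem_map.2 ⟨A, List.mem_filter.2 ⟨List.mem_range.2 hA, ?_⟩, rfl⟩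
        rw [← H.fam j h.2, ← H.fam i (by omega), h2, h3]
        rfl
      · exact (val_gv (by omega) h.2 hA).2 h1
    · exact taut_valid _
  | LI i j k A p =>
    rw [cl]
    split
    · rename_i h
      simp only [inc3, Bool.and_eq_true, Nat.blt_eq, Bool.not_eq_true'] at h
      obtain ⟨⟨⟨⟨⟨hij, hjk⟩, hk⟩, hA⟩, hp⟩, hb⟩ := h
      right
      by_contra hcon
      push Not at hcon
      have h1 := (val_gv (x := x) (f := f) (by omega) hk hA).1 (hcon (gv j k A) (by simp))
      have h2 : p / 3 ≤ lev f 0 (x i) (x j) (x k) := by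
        by_cases h3 : 1 ≤ p / 3
        · have h4 : Nat.ble 1 (p / 3) = true := by rw [Nat.ble_eq]; exact h3
          have h5 := hcon (lv i j k 0 (p / 3)) (by simp [h4])
          exact (val_lv (by omega) (by omega) hk (by omega) h3 (by omega)).1 h5
        · omega
      have h3 : p % 3 ≤ lev f 1 (x i) (x j) (x k) := by
        by_cases h3 : 1 ≤ p % 3
        · have h4 : Nat.ble 1 (p % 3) = true := by rw [Nat.ble_eq]; exact h3
          have h5 := hcon (lv i j k 1 (p % 3)) (by simp [h4])
          exact (val_lv (by omega) (by omega) hk (by omega) h3 (by omega)).1 h5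
        · omega
      have h4 := testBit_gm_lev (H.pos i (by omega)) (H.inc i j hij (by omega)) hp h2 h3
      rw [h1, hb] at h4
      exact Bool.noConfusion h4
    · exact taut_valid _
  | LO i j k A p =>
    rw [cl]
    split
    · rename_i h
      simp only [inc3, Bool.and_eq_true, Nat.blt_eq] at h
      obtain ⟨⟨⟨⟨⟨hij, hjk⟩, hk⟩, hA⟩, hp⟩, hb⟩ := h
      by_contra hcon
      push Not at hcon
      obtain ⟨hc1, hc2⟩ := hcon
      have h1 := (val_gv (x := x) (f := f) (by omega) (by omega) hA).1 (hc2 (gv i j A) (by simp))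
      have hl0 := lev_le (f := f) 0 (x i) (x j) (x k)
      have hl1 := lev_le (f := f) 1 (x i) (x j) (x k)
      have h2 : lev f 0 (x i) (x j) (x k) ≤ p / 3 := by
        by_cases h3 : p / 3 < 2
        · have h4 : Nat.blt (p / 3) 2 = true := by rw [Nat.blt_eq]; exact h3
          have h5 := hc1 (lv i j k 0 (p / 3 + 1)) (by simp [h4])
          rw [val_lv (by omega) (by omega) hk (by omega) (by omega) (by omega)] at h5
          change ¬ (p / 3 + 1 ≤ lev f 0 (x i) (x j) (x k)) at h5
          omega
        · omega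
      have h3 : lev f 1 (x i) (x j) (x k) ≤ p % 3 := by
        by_cases h3 : p % 3 < 2
        · have h4 : Nat.blt (p % 3) 2 = true := by rw [Nat.blt_eq]; exact h3
          have h5 := hc1 (lv i j k 1 (p % 3 + 1)) (by simp [h4])
          rw [val_lv (by omega) (by omega) hk (by omega) (by omega) (by omega)] at h5
          change ¬ (p % 3 + 1 ≤ lev f 1 (x i) (x j) (x k)) at h5
          omega
        · omega
      have h4 := not_gm H.no (H.inc i j hij (by omega)) (H.inc j k hjk hk) (H.le k hk) h2 h3
      rw [h1, hb] at h4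
      exact Bool.noConfusion h4
    · exact taut_valid _
  | LV i j k t =>
    rw [cl]
    split
    · rename_i h
      simp only [inc3, Bool.and_eq_true, Nat.blt_eq] at h
      obtain ⟨⟨⟨hij, hjk⟩, hk⟩, ht⟩ := h
      by_cases h2 : val f x (lv i j k t 2)
      · left
        refine ⟨lv i j k t 1, by simp, ?_⟩
        rw [val_lv (by omega) (by omega) hk ht (by omega) (by omega)] at h2 ⊢
        omega
      · right
        exact ⟨lv i j k t 2, by simp, h2⟩
    · exact taut_valid _
  | C i j k m t l =>
    rw [cl]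
    split
    · rename_i h
      simp only [inc3, Bool.and_eq_true, Nat.blt_eq] at h
      obtain ⟨⟨⟨⟨⟨⟨hij, hjk⟩, hk⟩, hkm⟩, hm⟩, ht⟩, hl⟩ := h
      by_contra hcon
      push Not at hcon
      obtain ⟨hc1, hc2⟩ := hcon
      have hcol : f (x i) (x j) (x k) (x m) = colr t := by
        by_cases h0 : t = 0
        · subst h0
          have h3 : Nat.beq 0 0 = true := rfl
          have := hc2 (cv i j k m) (by simp [h3])
          rw [val_cv (by omega) (by omega) hk hm] at this
          rw [this]; rfl
        · have h3 : Nat.beq t 0 = false := by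
            rw [Bool.eq_false_iff, ne_eq, Nat.beq_eq]; exact h0
          have := hc1 (cv i j k m) (by simp [h3])
          rw [val_cv (by omega) (by omega) hk hm] at this
          rw [fin2 _ this]
          unfold colr
          rw [if_neg h0]
      have h1 := lev_lt H.no (H.pos i (by omega)) (H.inc i j hij (by omega))
        (H.inc j k hjk hk) (H.inc k m hkm hm) (H.le m hm) hcol
      have h2 : l ≤ lev f (colr t) (x i) (x j) (x k) := by
        by_cases h3 : 1 ≤ l
        · have h4 : Nat.ble 1 l = true := by rw [Nat.ble_eq]; exact h3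
          have h5 := hc2 (lv i j k t l) (by simp [h4])
          exact (val_lv (by omega) (by omega) hk ht h3 (by omega)).1 h5
        · omega
      have h3 := lev_le (f := f) (colr t) (x j) (x k) (x m)
      by_cases h4 : l < 2
      · have h5 : Nat.blt l 2 = true := by rw [Nat.blt_eq]; exact h4
        have h6 := hc1 (lv j k m t (l + 1)) (by simp [h5])
        rw [val_lv (by omega) hk hm ht (by omega) (by omega)] at h6
        omega
      · omega
    · exact taut_valid _
  | T i j k m o d t =>
    rw [cl]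
    split
    · rename_i h
      simp only [inc3, Bool.and_eq_true, Nat.blt_eq] at h
      obtain ⟨⟨⟨⟨⟨hij, hjk⟩, hk⟩, hkm⟩, hmo⟩, ho⟩ := h
      have key : ∀ e, f (x i) (x j) (x k) (x m) = e → f (x j) (x k) (x m) (x o) = e →
          (val f x (tv i j k m o d) ↔ e = 0) := by
        intro e h1 h2
        obtain ⟨h3, h4, h5⟩ := H.tr _ _ _ _ _ (H.pos i (by omega)) (H.inc i j hij (by omega))
          (H.inc j k hjk hk) (H.inc k m hkm (by omega)) (H.inc m o hmo ho) (H.le o ho) e h1 h2
        unfold tv
        split_ifs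
        · rw [val_cv (by omega) hk (by omega) ho, h3]
        · rw [val_cv (by omega) (by omega) (by omega) ho, h4]
        · rw [val_cv (by omega) (by omega) hk ho, h5]
      generalize tv i j k m o d = w at *
      split
      · by_contra hcon
        push Not at hcon
        obtain ⟨hc1, hc2⟩ := hcon
        have h1 := hc2 (cv i j k m) (by simp)
        have h2 := hc2 (cv j k m o) (by simp)
        rw [val_cv (by omega) (by omega) hk (by omega)] at h1
        rw [val_cv (by omega) hk (by omega) ho] at h2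
        have h3 := hc1 w (by simp)
        exact h3 ((key 0 h1 h2).2 rfl)
      · by_contra hcon
        push Not at hcon
        obtain ⟨hc1, hc2⟩ := hcon
        have h1 := hc1 (cv i j k m) (by simp)
        have h2 := hc1 (cv j k m o) (by simp)
        rw [val_cv (by omega) (by omega) hk (by omega)] at h1
        rw [val_cv (by omega) hk (by omega) ho] at h2
        have h3 := hc2 w (by simp)
        have h4 := (key 1 (fin2 _ h1) (fin2 _ h2)).1 h3
        exact absurd h4 (by decide)
    · exact taut_valid _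

/-- soundness -/
theorem check_sound {N : ℕ} {W : List ℕ} {as : List Ax}
    {st : List (List ℕ × List ℕ × List ℕ)} (h : check W as st = true) (H : Conf f N W x) :
    False := by
  refine run_sound (val f x) st _ _ ?_ h
  refine build_valid _ _ (fun a => (valid_iff _ _).2 (cl_valid H a)) as 0 .nil ?_
  intro i
  exact valid_taut _

end Q119.TP
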