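import Pool.Agent.Q119.TP.Cert

/-!
# The certificates
-/

set_option autoImplicit false

namespace Q119.TP

/-- the impossible sequences of families -/
def seqs : List (List ℕ) := [
  [33, 37, 38, 42, 46, 48, 54],
  [33, 37, 38, 42, 48, 54, 46],
  [33, 39, 38, 44, 48, 51, 50],
  [10, 13, 21, 22, 27, 26, 31],
  [33, 39, 38, 44, 48, 50, 51],
  [33, 37, 38, 42, 48, 46, 54],
  [33, 39, 38, 44, 50, 48, 51],
  [19, 15, 17, 23, 27, 28, 33],
  [27, 32, 38, 37, 39, 41, 45],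
  [15, 17, 19, 23, 27, 28, 33],
  [27, 32, 38, 39, 37, 41, 45],
  [27, 32, 38, 39, 37, 45, 41],
  [27, 32, 38, 37, 39, 45, 41],
  [19, 20, 26, 23, 27, 32, 33],
  [19, 17, 15, 21, 27, 26, 33],
  [14, 17, 15, 21, 23, 22, 33],
  [27, 32, 38, 37, 41, 39, 45],
  [15, 19, 17, 23, 27, 28, 33],
  [27, 32, 38, 39, 45, 37, 41],
  [20, 19, 23, 26, 27, 32, 33],
  [19, 23, 20, 26, 27, 32, 33],
  [20, 19, 26, 23, 27, 32, 33],
  [16, 22, 19, 23, 27, 28, 33],
  [15, 21, 24, 28, 27, 32, 33],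
  [18, 15, 22, 21, 27, 26, 33],
  [18, 22, 15, 21, 27, 26, 33],
  [15, 18, 22, 21, 27, 26, 33],
  [11, 17, 19, 23, 21, 22, 33],
  [19, 20, 23, 26, 27, 32, 33]]

theorem cert0 : check ([33, 37, 38, 42, 46, 48, 54].map em)
    [.G 0 2,
     .G 0 3,
     .G 1 2,
     .G 1 3,
     .G 2 3,
     .G 3 4,
     .G 3 5,
     .G 5 6,
     .LO 0 2 3 7 4,
     .LI 0 2 3 8 6,
     .LO 0 3 5 7 4,
     .LO 0 3 5 8 4,
     .LI 0 3 5 13 2,
     .LO 1 2 3 12 2,
     .LO 1 3 5 12 6,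
     .LI 2 3 4 9 6,
     .LO 2 3 5 8 4,
     .LI 2 3 5 13 2,
     .LI 2 3 5 13 7,
     .LI 3 5 6 16 2,
     .C 0 2 3 4 1 2,
     .C 0 3 5 6 0 2,
     .C 1 2 3 4 0 1,
     .C 1 2 3 5 1 0,
     .C 1 3 5 6 1 1,
     .T 0 1 2 3 4 1 1,
     .T 0 1 2 3 5 2 0,
     .T 0 1 3 5 6 1 0]
    [([1069, 1071], [], [0, 8]),
     ([], [1069], [4, 9]),
     ([1071], [], [29, 28]),
     ([], [1107], [6, 12]),
     ([1264], [], [2, 13]),
     ([1302], [], [3, 14]),
     ([], [1493], [5, 15]),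
     ([1497, 1499], [], [4, 16]),
     ([], [1499], [6, 17]),
     ([1497], [], [36, 35]),
     ([], [1498], [6, 37, 18]),
     ([], [1755], [7, 19]),
     ([2523], [], [30, 20]),
     ([], [2866], [34, 32, 22]),
     ([2867], [], [38, 23]),
     ([2931], [], [39, 33, 24]),
     ([2466], [], [41, 40, 25]),
     ([2475], [], [44, 42, 26]),
     ([2588], [], [45, 43, 27]),
     ([], [1105], [46, 21]),
     ([], [67], [47, 31, 10]),
     ([], [68], [47, 31, 11]),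
     ([], [], [48, 49, 1])] = true := by
  decide +kernel

theorem cert1 : check ([33, 37, 38, 42, 48, 54, 46].map em)
    [.G 0 2,
     .G 0 3,
     .G 1 2,
     .G 1 3,
     .G 2 3,
     .G 3 4,
     .G 3 6,
     .G 4 5,
     .LO 0 2 3 7 4,
     .LI 0 2 3 8 6,
     .LO 0 3 4 7 4,
     .LO 0 3 4 8 4,
     .LI 0 3 4 13 2,
     .LO 1 2 3 12 2,
     .LO 1 3 4 12 6,
     .LO 2 3 4 8 4,
     .LI 2 3 4 13 2,
     .LI 2 3 4 13 7,
     .LI 2 3 6 9 6,
     .LI 3 4 5 16 2,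
     .C 0 2 3 6 1 2,
     .C 0 3 4 5 0 2,
     .C 1 2 3 4 1 0,
     .C 1 2 3 6 0 1,
     .C 1 3 4 5 1 1,
     .T 0 1 2 3 4 2 0,
     .T 0 1 2 3 6 1 1,
     .T 0 1 3 4 5 1 0]
    [([1069, 1071], [], [0, 8]),
     ([], [1069], [4, 9]),
     ([1071], [], [29, 28]),
     ([], [1103], [5, 12]),
     ([1264], [], [2, 13]),
     ([1298], [], [3, 14]),
     ([1493, 1495], [], [4, 15]),
     ([], [1495], [5, 16]),
     ([1493], [], [35, 34]),
     ([], [1494], [5, 36, 17]),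
     ([], [1501], [6, 18]),
     ([], [1723], [7, 19]),
     ([2525], [], [30, 20]),
     ([2866], [], [37, 22]),
     ([], [2868], [38, 32, 23]),
     ([2923], [], [39, 33, 24]),
     ([2474], [2466], [41, 25]),
     ([2466], [], [42, 40, 26]),
     ([2474], [], [45, 44]),
     ([2580], [], [46, 43, 27]),
     ([], [1101], [47, 21]),
     ([], [67], [48, 31, 10]),
     ([], [68], [48, 31, 11]),
     ([], [], [49, 50, 1])] = true := by
  decide +kernel

theorem cert2 : check ([33, 39, 38, 44, 48, 51, 50].map em)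
    [.G 0 2,
     .G 0 3,
     .G 1 2,
     .G 1 3,
     .G 2 3,
     .G 3 4,
     .G 3 6,
     .G 4 5,
     .LO 0 2 3 7 4,
     .LI 0 2 3 13 2,
     .LO 0 3 4 7 4,
     .LI 0 3 4 8 6,
     .LO 0 3 4 13 4,
     .LO 1 2 3 12 6,
     .LO 1 3 4 12 2,
     .LI 2 3 4 8 5,
     .LI 2 3 4 8 6,
     .LO 2 3 4 13 4,
     .LI 2 3 6 16 2,
     .LI 3 4 5 9 6,
     .C 0 2 3 6 0 2,
     .C 0 3 4 5 1 2,
     .C 1 2 3 4 0 0,
     .C 1 2 3 6 1 1,
     .C 1 3 4 5 0 1,
     .T 0 1 2 3 4 2 1,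
     .T 0 1 2 3 6 1 0,
     .T 0 1 3 4 5 1 1]
    [([1069, 1071], [], [0, 8]),
     ([], [1071], [4, 9]),
     ([1069], [], [29, 28]),
     ([], [1101], [5, 11]),
     ([1103], [73], [31, 12]),
     ([1266], [], [2, 13]),
     ([1296], [], [3, 14]),
     ([], [1492, 1495], [5, 15]),
     ([], [1493], [5, 16]),
     ([1495], [], [36, 4, 17]),
     ([], [1492], [37, 35]),
     ([], [1503], [6, 18]),
     ([], [1721], [7, 19]),
     ([], [2525], [30, 20]),
     ([], [2866], [38, 22]),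
     ([2868], [], [39, 33, 23]),
     ([], [2923], [40, 34, 24]),
     ([2466], [2474], [42, 25]),
     ([], [2466], [41, 43, 26]),
     ([], [2474], [46, 45]),
     ([], [2580], [47, 44, 27]),
     ([], [1103], [48, 21]),
     ([], [67], [49, 31, 10]),
     ([], [73], [49, 32]),
     ([], [], [50, 51, 1])] = true := by
  decide +kernel

theorem cert3 : check ([10, 13, 21, 22, 27, 26, 31].map em)
    [.G 0 1,
     .G 1 2,
     .G 2 3,
     .G 2 4,
     .G 3 5,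
     .G 4 5,
     .G 5 6,
     .LO 0 1 2 3 2,
     .LI 1 2 3 7 6,
     .LO 1 2 4 5 1,
     .LO 1 2 4 6 1,
     .LI 1 2 4 11 2,
     .LI 1 2 4 11 4,
     .LI 2 3 5 6 4,
     .LI 2 3 5 6 6,
     .LO 2 3 5 7 3,
     .LO 3 5 6 6 2,
     .LI 3 5 6 8 5,
     .LO 4 5 6 7 4,
     .LI 4 5 6 8 5,
     .LI 4 5 6 8 6,
     .C 0 1 2 3 0 1,
     .C 0 1 2 4 1 0,
     .C 1 2 3 5 0 0,
     .C 2 3 5 6 1 1,
     .C 3 4 5 6 0 0,
     .T 0 1 2 3 4 3 1,
     .T 1 2 3 4 5 3 0,
     .T 2 3 4 5 6 2 1]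
    [([1036], [], [0, 7]),
     ([], [1265], [2, 8]),
     ([], [1271], [3, 11]),
     ([], [1268, 1270], [3, 12]),
     ([], [1496, 1498], [4, 13]),
     ([], [1497], [4, 14]),
     ([1498], [], [34, 2, 15]),
     ([], [1496], [35, 33]),
     ([1752], [], [4, 16]),
     ([], [1755], [6, 37, 17]),
     ([1949, 1951], [], [5, 18]),
     ([], [1948, 1951], [6, 19]),
     ([], [1949], [6, 20]),
     ([1951], [], [41, 39]),
     ([], [1948], [42, 40]),
     ([], [2466], [30, 29, 21]),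
     ([], [2867], [36, 23]),
     ([3274], [], [38, 35, 24]),
     ([], [3666], [43, 25]),
     ([2866], [2467], [44, 26]),
     ([], [2866, 3266], [45, 27]),
     ([3266], [], [47, 46, 28]),
     ([], [2866], [50, 49]),
     ([], [2467], [51, 48]),
     ([1270], [], [52, 22]),
     ([], [1268], [53, 32]),
     ([], [185], [54, 31, 9]),
     ([], [186], [54, 31, 10]),
     ([], [], [55, 56, 1])] = true := by
  decide +kernel

theorem cert4 : check ([33, 39, 38, 44, 48, 50, 51].map em)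
    [.G 0 2,
     .G 0 3,
     .G 1 2,
     .G 1 3,
     .G 2 3,
     .G 3 4,
     .G 3 5,
     .G 4 6,
     .LO 0 2 3 7 4,
     .LI 0 2 3 13 2,
     .LO 0 3 4 7 4,
     .LI 0 3 4 8 6,
     .LO 0 3 4 13 4,
     .LO 1 2 3 12 6,
     .LO 1 3 4 12 2,
     .LI 2 3 4 8 5,
     .LI 2 3 4 8 6,
     .LO 2 3 4 13 4,
     .LI 2 3 5 16 2,
     .LI 3 4 6 9 6,
     .C 0 2 3 5 0 2,
     .C 0 3 4 6 1 2,
     .C 1 2 3 4 0 0,
     .C 1 2 3 5 1 1,
     .C 1 3 4 6 0 1,
     .T 0 1 2 3 4 2 1,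
     .T 0 1 2 3 5 1 0,
     .T 0 1 3 4 6 1 1]
    [([1069, 1071], [], [0, 8]),
     ([], [1071], [4, 9]),
     ([1069], [], [29, 28]),
     ([], [1101], [5, 11]),
     ([1103], [73], [31, 12]),
     ([1266], [], [2, 13]),
     ([1296], [], [3, 14]),
     ([], [1492, 1495], [5, 15]),
     ([], [1493], [5, 16]),
     ([1495], [], [36, 4, 17]),
     ([], [1492], [37, 35]),
     ([], [1499], [6, 18]),
     ([], [1725], [7, 19]),
     ([], [2524], [30, 20]),
     ([], [2866], [38, 22]),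
     ([2867], [], [39, 33, 23]),
     ([], [2924], [40, 34, 24]),
     ([2466], [2474], [42, 25]),
     ([], [2466], [41, 43, 26]),
     ([], [2474], [46, 45]),
     ([], [2581], [47, 44, 27]),
     ([], [1103], [48, 21]),
     ([], [67], [49, 31, 10]),
     ([], [73], [49, 32]),
     ([], [], [50, 51, 1])] = true := by
  decide +kernel

theorem cert5 : check ([33, 37, 38, 42, 48, 46, 54].map em)
    [.G 0 2,
     .G 0 3,
     .G 1 2,
     .G 1 3,
     .G 2 3,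
     .G 3 4,
     .G 3 5,
     .G 4 6,
     .LO 0 2 3 7 4,
     .LI 0 2 3 8 6,
     .LO 0 3 4 7 4,
     .LO 0 3 4 8 4,
     .LI 0 3 4 13 2,
     .LO 1 2 3 12 2,
     .LO 1 3 4 12 6,
     .LO 2 3 4 8 4,
     .LI 2 3 4 13 2,
     .LI 2 3 4 13 7,
     .LI 2 3 5 9 6,
     .LI 3 4 6 16 2,
     .C 0 2 3 5 1 2,
     .C 0 3 4 6 0 2,
     .C 1 2 3 4 1 0,
     .C 1 2 3 5 0 1,
     .C 1 3 4 6 1 1,
     .T 0 1 2 3 4 2 0,
     .T 0 1 2 3 5 1 1,
     .T 0 1 3 4 6 1 0]
    [([1069, 1071], [], [0, 8]),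
     ([], [1069], [4, 9]),
     ([1071], [], [29, 28]),
     ([], [1103], [5, 12]),
     ([1264], [], [2, 13]),
     ([1298], [], [3, 14]),
     ([1493, 1495], [], [4, 15]),
     ([], [1495], [5, 16]),
     ([1493], [], [35, 34]),
     ([], [1494], [5, 36, 17]),
     ([], [1497], [6, 18]),
     ([], [1727], [7, 19]),
     ([2524], [], [30, 20]),
     ([2866], [], [37, 22]),
     ([], [2867], [38, 32, 23]),
     ([2924], [], [39, 33, 24]),
     ([2474], [2466], [41, 25]),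
     ([2466], [], [42, 40, 26]),
     ([2474], [], [45, 44]),
     ([2581], [], [46, 43, 27]),
     ([], [1101], [47, 21]),
     ([], [67], [48, 31, 10]),
     ([], [68], [48, 31, 11]),
     ([], [], [49, 50, 1])] = true := by
  decide +kernel

theorem cert6 : check ([33, 39, 38, 44, 50, 48, 51].map em)
    [.G 0 2,
     .G 0 3,
     .G 1 2,
     .G 1 3,
     .G 2 3,
     .G 3 4,
     .G 3 5,
     .G 5 6,
     .LO 0 2 3 7 4,
     .LI 0 2 3 13 2,
     .LO 0 3 5 7 4,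
     .LI 0 3 5 8 6,
     .LO 0 3 5 13 4,
     .LO 1 2 3 12 6,
     .LO 1 3 5 12 2,
     .LI 2 3 4 16 2,
     .LI 2 3 5 8 5,
     .LI 2 3 5 8 6,
     .LO 2 3 5 13 4,
     .LI 3 5 6 9 6,
     .C 0 2 3 4 0 2,
     .C 0 3 5 6 1 2,
     .C 1 2 3 4 1 1,
     .C 1 2 3 5 0 0,
     .C 1 3 5 6 0 1,
     .T 0 1 2 3 4 1 0,
     .T 0 1 2 3 5 2 1,
     .T 0 1 3 5 6 1 1]
    [([1069, 1071], [], [0, 8]),
     ([], [1071], [4, 9]),
     ([1069], [], [29, 28]),
     ([], [1105], [6, 11]),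
     ([1107], [73], [31, 12]),
     ([1266], [], [2, 13]),
     ([1300], [], [3, 14]),
     ([], [1495], [5, 15]),
     ([], [1496, 1499], [6, 16]),
     ([], [1497], [6, 17]),
     ([1499], [], [37, 4, 18]),
     ([], [1496], [38, 36]),
     ([], [1753], [7, 19]),
     ([], [2523], [30, 20]),
     ([2866], [], [35, 33, 22]),
     ([], [2867], [39, 23]),
     ([], [2931], [40, 34, 24]),
     ([], [2466], [41, 42, 25]),
     ([], [2475], [45, 43, 26]),
     ([], [2588], [46, 44, 27]),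
     ([], [1107], [47, 21]),
     ([], [67], [48, 31, 10]),
     ([], [73], [48, 32]),
     ([], [], [49, 50, 1])] = true := by
  decide +kernel

theorem cert7 : check ([19, 15, 17, 23, 27, 28, 33].map em)
    [.G 0 2,
     .G 0 3,
     .G 1 2,
     .G 2 3,
     .G 3 4,
     .G 3 5,
     .G 3 6,
     .G 4 5,
     .G 4 6,
     .G 5 6,
     .LO 0 2 3 3 2,
     .LO 0 3 4 3 2,
     .LO 1 2 3 10 6,
     .LO 1 2 4 10 6,
     .LI 2 3 5 7 2,
     .LI 2 3 5 7 6,
     .LI 2 3 6 6 4,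
     .LO 2 3 6 11 6,
     .LI 2 3 6 12 4,
     .LI 2 4 5 7 2,
     .LI 2 5 6 12 4,
     .LO 3 4 5 6 2,
     .LI 3 4 5 7 6,
     .LO 3 4 6 6 2,
     .LI 3 4 6 12 4,
     .LI 4 5 6 6 6,
     .LI 4 5 6 12 4,
     .C 0 2 3 5 0 1,
     .C 0 2 5 6 1 0,
     .C 0 3 4 5 0 1,
     .C 0 3 4 6 1 0,
     .C 1 2 3 5 1 1,
     .C 1 2 3 6 0 0,
     .C 1 2 4 5 1 1,
     .C 1 2 5 6 0 0,
     .C 2 4 5 6 1 0,
     .C 3 4 5 6 0 0,
     .C 3 4 5 6 0 1,
     .T 0 2 3 5 6 2 1,
     .T 0 3 4 5 6 3 1,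
     .T 1 2 3 5 6 3 0,
     .T 1 2 4 5 6 2 0]
    [([1068], [], [0, 10]),
     ([1100], [], [1, 11]),
     ([1266], [], [2, 12]),
     ([1270], [], [2, 13]),
     ([], [1499], [5, 14]),
     ([], [1497], [5, 15]),
     ([1502], [], [3, 17]),
     ([], [552, 1500], [48, 18]),
     ([], [1527], [7, 19]),
     ([1720], [], [4, 21]),
     ([], [1721], [7, 22]),
     ([1724], [], [4, 23]),
     ([], [1726], [8, 53, 24]),
     ([], [2524], [47, 42, 27]),
     ([], [2580], [52, 43, 29]),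
     ([2581], [], [54, 30]),
     ([2867], [], [46, 44, 31]),
     ([2874], [], [50, 45, 33]),
     ([1949], [3666], [51, 37]),
     ([3274], [2539], [55, 38]),
     ([3666], [], [56, 57, 39]),
     ([1948], [], [62, 36]),
     ([1949], [], [62, 60]),
     ([], [826], [64, 25]),
     ([832], [], [65, 9]),
     ([], [1950], [66, 63, 26]),
     ([3323], [], [67, 35]),
     ([2868], [3274], [58, 40]),
     ([2882], [], [59, 68, 41]),
     ([1556], [], [70, 34]),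
     ([], [1558], [71, 66, 20]),
     ([2539], [], [72, 28]),
     ([3274], [], [73, 61]),
     ([2868], [], [74, 69]),
     ([1500], [], [75, 32]),
     ([], [546], [76, 48, 16]),
     ([], [552], [76, 49]),
     ([], [], [77, 78, 6])] = true := by
  decide +kernel

theorem cert8 : check ([27, 32, 38, 37, 39, 41, 45].map em)
    [.G 0 1,
     .G 1 2,
     .G 1 3,
     .G 1 4,
     .G 2 3,
     .G 3 4,
     .G 3 5,
     .G 4 6,
     .LO 0 1 3 7 4,
     .LI 0 1 3 8 6,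
     .LO 0 1 4 7 4,
     .LI 0 1 4 13 2,
     .LO 1 2 3 12 2,
     .LO 1 2 4 12 6,
     .LO 2 3 4 8 4,
     .LI 2 3 4 13 2,
     .LI 2 3 4 13 7,
     .LI 2 3 5 9 6,
     .LI 2 4 6 16 2,
     .C 0 1 3 5 1 2,
     .C 0 1 4 6 0 2,
     .C 1 2 3 4 1 0,
     .C 1 2 3 5 0 1,
     .C 1 2 4 6 1 1,
     .T 0 1 2 3 4 3 0,
     .T 0 1 2 3 5 2 1,
     .T 0 1 2 4 6 2 0]
    [([1041, 1043], [], [0, 8]),
     ([], [1041], [2, 9]),
     ([1043], [], [28, 27]),
     ([1045, 1047], [], [0, 10]),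
     ([], [1047], [3, 11]),
     ([1045], [], [31, 30]),
     ([1264], [], [1, 12]),
     ([1270], [], [1, 13]),
     ([1493, 1495], [], [4, 14]),
     ([], [1495], [5, 15]),
     ([1493], [], [36, 35]),
     ([], [1494], [5, 37, 16]),
     ([], [1497], [6, 17]),
     ([], [1531], [7, 18]),
     ([2475], [], [29, 19]),
     ([], [2483], [32, 20]),
     ([2866], [], [38, 21]),
     ([], [2867], [39, 33, 22]),
     ([2875], [], [40, 34, 23]),
     ([2467], [2466], [43, 24]),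
     ([2466], [], [44, 41, 25]),
     ([2467], [], [47, 46]),
     ([], [], [42, 48, 45, 26])] = true := by
  decide +kernel

theorem cert9 : check ([15, 17, 19, 23, 27, 28, 33].map em)
    [.G 0 1,
     .G 1 3,
     .G 2 3,
     .G 3 4,
     .G 3 5,
     .G 3 6,
     .G 4 5,
     .G 4 6,
     .LO 0 1 3 10 6,
     .LI 1 3 4 6 6,
     .LO 1 3 4 11 3,
     .LI 1 3 5 7 2,
     .LI 1 3 6 6 4,
     .LO 1 3 6 11 6,
     .LI 1 3 6 12 4,
     .LO 2 3 4 3 2,
     .LI 3 4 5 7 2,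
     .LI 3 4 5 7 6,
     .LO 3 4 6 6 2,
     .LI 3 4 6 12 4,
     .C 0 1 3 5 1 1,
     .C 0 1 3 6 0 0,
     .C 1 3 4 5 1 1,
     .C 2 3 4 5 0 1,
     .C 2 3 4 6 1 0,
     .T 0 1 3 5 6 3 0,
     .T 1 3 4 5 6 2 0,
     .T 2 3 4 5 6 3 1]
    [([1042], [], [0, 8]),
     ([], [1297], [3, 9]),
     ([1298], [], [29, 1, 10]),
     ([], [1303], [4, 11]),
     ([1306], [], [1, 13]),
     ([], [552, 1304], [32, 14]),
     ([1492], [], [2, 15]),
     ([], [1723], [6, 16]),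
     ([], [1721], [6, 17]),
     ([1724], [], [3, 18]),
     ([], [1726], [7, 37, 19]),
     ([2475], [], [31, 28, 20]),
     ([2923], [], [35, 30, 22]),
     ([], [3266], [36, 34, 23]),
     ([3267], [], [38, 24]),
     ([2476], [2931], [39, 25]),
     ([2931], [3666], [40, 26]),
     ([3666], [], [41, 42, 27]),
     ([2931], [], [45, 44]),
     ([2476], [], [46, 43]),
     ([1304], [], [47, 21]),
     ([], [546], [48, 32, 12]),
     ([], [552], [48, 33]),
     ([], [], [49, 50, 5])] = true := by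
  decide +kernel

theorem cert10 : check ([27, 32, 38, 39, 37, 41, 45].map em)
    [.G 0 1,
     .G 1 2,
     .G 1 3,
     .G 1 4,
     .G 2 3,
     .G 3 4,
     .G 3 6,
     .G 4 5,
     .LO 0 1 3 7 4,
     .LI 0 1 3 13 2,
     .LO 0 1 4 7 4,
     .LI 0 1 4 8 6,
     .LO 1 2 3 12 6,
     .LO 1 2 4 12 2,
     .LI 2 3 4 8 5,
     .LI 2 3 4 8 6,
     .LO 2 3 4 13 4,
     .LI 2 3 6 16 2,
     .LI 2 4 5 9 6,
     .C 0 1 3 6 0 2,
     .C 0 1 4 5 1 2,
     .C 1 2 3 4 0 0,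
     .C 1 2 3 6 1 1,
     .C 1 2 4 5 0 1,
     .T 0 1 2 3 4 3 1,
     .T 0 1 2 3 6 2 0,
     .T 0 1 2 4 5 2 1]
    [([1041, 1043], [], [0, 8]),
     ([], [1043], [2, 9]),
     ([1041], [], [28, 27]),
     ([1045, 1047], [], [0, 10]),
     ([], [1045], [3, 11]),
     ([1047], [], [31, 30]),
     ([1266], [], [1, 12]),
     ([1268], [], [1, 13]),
     ([], [1492, 1495], [5, 14]),
     ([], [1493], [5, 15]),
     ([1495], [], [36, 4, 16]),
     ([], [1492], [37, 35]),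
     ([], [1503], [6, 17]),
     ([], [1525], [7, 18]),
     ([], [2476], [29, 19]),
     ([2482], [], [32, 20]),
     ([], [2866], [38, 21]),
     ([2868], [], [39, 33, 22]),
     ([], [2874], [40, 34, 23]),
     ([2466], [2467], [43, 24]),
     ([], [2466], [41, 44, 25]),
     ([], [2467], [47, 46]),
     ([], [], [48, 45, 42, 26])] = true := by
  decide +kernel

theorem cert11 : check ([27, 32, 38, 39, 37, 45, 41].map em)
    [.G 0 1,
     .G 1 2,
     .G 1 3,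
     .G 1 4,
     .G 2 3,
     .G 3 4,
     .G 3 5,
     .G 4 6,
     .LO 0 1 3 7 4,
     .LI 0 1 3 13 2,
     .LO 0 1 4 7 4,
     .LI 0 1 4 8 6,
     .LO 1 2 3 12 6,
     .LO 1 2 4 12 2,
     .LI 2 3 4 8 5,
     .LI 2 3 4 8 6,
     .LO 2 3 4 13 4,
     .LI 2 3 5 16 2,
     .LI 2 4 6 9 6,
     .C 0 1 3 5 0 2,
     .C 0 1 4 6 1 2,
     .C 1 2 3 4 0 0,
     .C 1 2 3 5 1 1,
     .C 1 2 4 6 0 1,
     .T 0 1 2 3 4 3 1,
     .T 0 1 2 3 5 2 0,
     .T 0 1 2 4 6 2 1]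
    [([1041, 1043], [], [0, 8]),
     ([], [1043], [2, 9]),
     ([1041], [], [28, 27]),
     ([1045, 1047], [], [0, 10]),
     ([], [1045], [3, 11]),
     ([1047], [], [31, 30]),
     ([1266], [], [1, 12]),
     ([1268], [], [1, 13]),
     ([], [1492, 1495], [5, 14]),
     ([], [1493], [5, 15]),
     ([1495], [], [36, 4, 16]),
     ([], [1492], [37, 35]),
     ([], [1499], [6, 17]),
     ([], [1529], [7, 18]),
     ([], [2475], [29, 19]),
     ([2483], [], [32, 20]),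
     ([], [2866], [38, 21]),
     ([2867], [], [39, 33, 22]),
     ([], [2875], [40, 34, 23]),
     ([2466], [2467], [43, 24]),
     ([], [2466], [41, 44, 25]),
     ([], [2467], [47, 46]),
     ([], [], [48, 45, 42, 26])] = true := by
  decide +kernel

theorem cert12 : check ([27, 32, 38, 37, 39, 45, 41].map em)
    [.G 0 1,
     .G 1 2,
     .G 1 3,
     .G 1 4,
     .G 2 3,
     .G 3 4,
     .G 3 6,
     .G 4 5,
     .LO 0 1 3 7 4,
     .LI 0 1 3 8 6,
     .LO 0 1 4 7 4,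
     .LI 0 1 4 13 2,
     .LO 1 2 3 12 2,
     .LO 1 2 4 12 6,
     .LO 2 3 4 8 4,
     .LI 2 3 4 13 2,
     .LI 2 3 4 13 7,
     .LI 2 3 6 9 6,
     .LI 2 4 5 16 2,
     .C 0 1 3 6 1 2,
     .C 0 1 4 5 0 2,
     .C 1 2 3 4 1 0,
     .C 1 2 3 6 0 1,
     .C 1 2 4 5 1 1,
     .T 0 1 2 3 4 3 0,
     .T 0 1 2 3 6 2 1,
     .T 0 1 2 4 5 2 0]
    [([1041, 1043], [], [0, 8]),
     ([], [1041], [2, 9]),
     ([1043], [], [28, 27]),
     ([1045, 1047], [], [0, 10]),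
     ([], [1047], [3, 11]),
     ([1045], [], [31, 30]),
     ([1264], [], [1, 12]),
     ([1270], [], [1, 13]),
     ([1493, 1495], [], [4, 14]),
     ([], [1495], [5, 15]),
     ([1493], [], [36, 35]),
     ([], [1494], [5, 37, 16]),
     ([], [1501], [6, 17]),
     ([], [1527], [7, 18]),
     ([2476], [], [29, 19]),
     ([], [2482], [32, 20]),
     ([2866], [], [38, 21]),
     ([], [2868], [39, 33, 22]),
     ([2874], [], [40, 34, 23]),
     ([2467], [2466], [43, 24]),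
     ([2466], [], [44, 41, 25]),
     ([2467], [], [47, 46]),
     ([], [], [42, 48, 45, 26])] = true := by
  decide +kernel

theorem cert13 : check ([19, 20, 26, 23, 27, 32, 33].map em)
    [.G 0 3,
     .G 1 2,
     .G 2 5,
     .G 3 4,
     .G 4 5,
     .G 4 6,
     .G 5 6,
     .LO 0 3 4 3 2,
     .LO 1 2 4 10 6,
     .LI 2 4 5 7 2,
     .LO 2 5 6 11 6,
     .LI 2 5 6 12 4,
     .LI 3 4 5 7 6,
     .LO 3 4 6 6 2,
     .LI 3 4 6 12 4,
     .LI 4 5 6 12 4,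
     .C 0 3 4 5 0 1,
     .C 0 3 4 6 1 0,
     .C 1 2 4 5 1 1,
     .C 1 2 5 6 0 0,
     .C 2 4 5 6 1 0,
     .C 3 4 5 6 0 0,
     .T 0 3 4 5 6 3 1,
     .T 1 2 4 5 6 2 0]
    [([1100], [], [0, 7]),
     ([1270], [], [1, 8]),
     ([], [1527], [4, 9]),
     ([1558], [], [2, 10]),
     ([], [1556], [6, 27, 11]),
     ([], [1721], [4, 12]),
     ([1724], [], [3, 13]),
     ([], [1726], [5, 30, 14]),
     ([], [1948, 1950], [6, 15]),
     ([], [2580], [29, 24, 16]),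
     ([2581], [], [31, 17]),
     ([2874], [], [26, 25, 18]),
     ([], [2882], [28, 19]),
     ([3666], [], [33, 34, 22]),
     ([1948], [], [37, 21]),
     ([], [1950], [38, 32]),
     ([3323], [], [39, 20]),
     ([], [], [36, 35, 40, 23])] = true := by
  decide +kernel

theorem cert14 : check ([19, 17, 15, 21, 27, 26, 33].map em)
    [.G 0 1,
     .G 1 3,
     .G 2 3,
     .G 3 4,
     .G 3 5,
     .G 3 6,
     .G 4 5,
     .G 4 6,
     .LO 0 1 3 3 2,
     .LO 1 3 4 6 2,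
     .LI 1 3 5 7 6,
     .LO 1 3 6 6 2,
     .LI 1 3 6 11 4,
     .LI 1 3 6 12 4,
     .LO 2 3 4 10 6,
     .LI 3 4 5 7 2,
     .LI 3 4 5 7 6,
     .LO 3 4 6 11 6,
     .LI 3 4 6 12 4,
     .C 0 1 3 5 0 1,
     .C 0 1 3 6 1 0,
     .C 1 3 4 5 0 1,
     .C 2 3 4 5 1 1,
     .C 2 3 4 6 0 0,
     .T 0 1 3 5 6 3 1,
     .T 1 3 4 5 6 2 1,
     .T 2 3 4 5 6 3 0]
    [([1040], [], [0, 8]),
     ([1296], [], [1, 9]),
     ([], [1301], [4, 10]),
     ([1304], [], [1, 11]),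
     ([], [551, 1306], [30, 12]),
     ([], [552, 1306], [30, 13]),
     ([1494], [], [2, 14]),
     ([], [1723], [6, 15]),
     ([], [1721], [6, 16]),
     ([1726], [], [3, 17]),
     ([], [1724], [7, 36, 18]),
     ([], [2475], [29, 27, 19]),
     ([], [2923], [35, 28, 21]),
     ([3266], [], [34, 33, 22]),
     ([], [3267], [37, 23]),
     ([2931], [2476], [38, 24]),
     ([3666], [2931], [39, 25]),
     ([], [3666], [41, 40, 26]),
     ([], [2931], [44, 43]),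
     ([], [2476], [45, 42]),
     ([1306], [], [46, 20]),
     ([], [551], [47, 31]),
     ([], [552], [47, 32]),
     ([], [], [48, 49, 5])] = true := by
  decide +kernel

theorem cert15 : check ([14, 17, 15, 21, 23, 22, 33].map em)
    [.G 0 1,
     .G 1 3,
     .G 2 3,
     .G 3 4,
     .G 3 5,
     .G 3 6,
     .G 4 5,
     .G 4 6,
     .LO 0 1 3 3 2,
     .LO 1 3 4 6 2,
     .LI 1 3 5 7 6,
     .LO 1 3 6 6 2,
     .LI 1 3 6 11 4,
     .LI 1 3 6 12 4,
     .LO 2 3 4 10 6,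
     .LI 3 4 5 7 2,
     .LI 3 4 5 7 6,
     .LI 3 4 6 6 4,
     .LO 3 4 6 11 6,
     .LI 3 4 6 12 4,
     .C 0 1 3 5 0 1,
     .C 0 1 3 6 1 0,
     .C 1 3 4 5 0 1,
     .C 2 3 4 5 1 1,
     .C 2 3 4 6 0 0,
     .T 0 1 3 5 6 3 1,
     .T 1 3 4 5 6 2 1,
     .T 2 3 4 5 6 3 0]
    [([1040], [], [0, 8]),
     ([1296], [], [1, 9]),
     ([], [1301], [4, 10]),
     ([1304], [], [1, 11]),
     ([], [551, 1306], [31, 12]),
     ([], [552, 1306], [31, 13]),
     ([1494], [], [2, 14]),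
     ([], [1723], [6, 15]),
     ([], [1721], [6, 16]),
     ([1726], [], [3, 18]),
     ([], [692, 1724], [37, 19]),
     ([], [2475], [30, 28, 20]),
     ([], [2923], [36, 29, 22]),
     ([3266], [], [35, 34, 23]),
     ([2931], [2476], [39, 25]),
     ([3666], [2931], [40, 26]),
     ([3267], [3666], [41, 27]),
     ([], [1724], [37, 17, 38, 7]),
     ([], [3267], [45, 24]),
     ([], [3666], [46, 44]),
     ([], [2931], [47, 43]),
     ([], [2476], [48, 42]),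
     ([1306], [], [49, 21]),
     ([], [551], [50, 32]),
     ([], [552], [50, 33]),
     ([], [], [51, 52, 5])] = true := by
  decide +kernel

theorem cert16 : check ([27, 32, 38, 37, 41, 39, 45].map em)
    [.G 0 1,
     .G 1 2,
     .G 1 3,
     .G 1 5,
     .G 2 3,
     .G 2 5,
     .G 3 4,
     .G 5 6,
     .LO 0 1 2 7 0,
     .LO 0 1 3 7 4,
     .LI 0 1 3 8 6,
     .LO 0 1 5 7 4,
     .LI 0 1 5 13 2,
     .LI 1 2 3 8 6,
     .LO 1 2 3 12 2,
     .LO 1 2 5 12 6,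
     .LI 1 2 5 13 2,
     .LI 2 3 4 9 6,
     .LI 2 5 6 16 2,
     .C 0 1 2 3 0 1,
     .C 0 1 2 5 1 1,
     .C 0 1 3 4 1 2,
     .C 0 1 5 6 0 2,
     .C 1 2 3 4 0 1,
     .C 1 2 5 6 1 1,
     .T 0 1 2 3 4 2 1,
     .T 0 1 2 5 6 2 0]
    [([1036, 1038], [], [0, 8]),
     ([1041, 1043], [], [0, 9]),
     ([], [1041], [2, 10]),
     ([1043], [], [29, 28]),
     ([1049, 1051], [], [0, 11]),
     ([], [1051], [3, 12]),
     ([1049], [], [32, 31]),
     ([], [1265], [4, 13]),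
     ([1264], [], [1, 14]),
     ([1274], [], [1, 15]),
     ([], [1275], [5, 16]),
     ([], [1493], [6, 17]),
     ([], [1559], [7, 18]),
     ([], [2466, 1036], [34, 19]),
     ([2468], [1038], [37, 20]),
     ([2474], [], [30, 21]),
     ([], [2490], [33, 22]),
     ([], [2866], [38, 35, 23]),
     ([2882], [], [39, 36, 24]),
     ([2466], [], [44, 42, 25]),
     ([], [1036], [46, 40]),
     ([1038], [], [47, 27]),
     ([2468], [], [48, 41]),
     ([], [], [43, 49, 45, 26])] = true := by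
  decide +kernel

theorem cert17 : check ([15, 19, 17, 23, 27, 28, 33].map em)
    [.G 0 2,
     .G 1 2,
     .G 1 3,
     .G 2 3,
     .G 3 4,
     .G 3 5,
     .G 3 6,
     .G 4 5,
     .G 4 6,
     .G 5 6,
     .LO 0 2 3 10 6,
     .LO 0 2 4 10 6,
     .LO 1 2 3 3 2,
     .LO 1 3 4 3 2,
     .LI 2 3 5 7 2,
     .LI 2 3 5 7 6,
     .LI 2 3 6 6 4,
     .LO 2 3 6 11 6,
     .LI 2 3 6 12 4,
     .LI 2 4 5 7 2,
     .LI 2 5 6 12 4,
     .LO 3 4 5 6 2,
     .LI 3 4 5 7 6,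
     .LO 3 4 6 6 2,
     .LI 3 4 6 12 4,
     .LI 4 5 6 6 6,
     .LI 4 5 6 12 4,
     .C 0 2 3 5 1 1,
     .C 0 2 3 6 0 0,
     .C 0 2 4 5 1 1,
     .C 0 2 5 6 0 0,
     .C 1 2 3 5 0 1,
     .C 1 2 5 6 1 0,
     .C 1 3 4 5 0 1,
     .C 1 3 4 6 1 0,
     .C 2 4 5 6 1 0,
     .C 3 4 5 6 0 0,
     .C 3 4 5 6 0 1,
     .T 0 2 3 5 6 3 0,
     .T 0 2 4 5 6 2 0,
     .T 1 2 3 5 6 2 1,
     .T 1 3 4 5 6 3 1]
    [([1070], [], [0, 10]),
     ([1074], [], [0, 11]),
     ([1264], [], [1, 12]),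
     ([1296], [], [2, 13]),
     ([], [1499], [5, 14]),
     ([], [1497], [5, 15]),
     ([1502], [], [3, 17]),
     ([], [552, 1500], [48, 18]),
     ([], [1527], [7, 19]),
     ([1720], [], [4, 21]),
     ([], [1721], [7, 22]),
     ([1724], [], [4, 23]),
     ([], [1726], [8, 53, 24]),
     ([2524], [], [46, 42, 27]),
     ([2531], [], [50, 43, 29]),
     ([], [2867], [47, 44, 31]),
     ([], [2923], [52, 45, 33]),
     ([2924], [], [54, 34]),
     ([1949], [3666], [51, 37]),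
     ([2525], [3274], [55, 38]),
     ([2539], [3323], [56, 39]),
     ([3274], [2882], [57, 40]),
     ([3666], [], [58, 59, 41]),
     ([1948], [], [64, 36]),
     ([1949], [], [64, 60]),
     ([], [826], [66, 25]),
     ([832], [], [67, 9]),
     ([], [1950], [68, 65, 26]),
     ([3323], [], [69, 35]),
     ([2539], [], [70, 62]),
     ([1556], [], [71, 30]),
     ([], [1558], [72, 68, 20]),
     ([2882], [], [73, 32]),
     ([3274], [], [74, 63]),
     ([2525], [], [75, 61]),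
     ([1500], [], [76, 28]),
     ([], [546], [77, 48, 16]),
     ([], [552], [77, 49]),
     ([], [], [78, 79, 6])] = true := by
  decide +kernel

theorem cert18 : check ([27, 32, 38, 39, 45, 37, 41].map em)
    [.G 0 1,
     .G 1 2,
     .G 1 3,
     .G 1 5,
     .G 2 3,
     .G 2 5,
     .G 3 4,
     .G 5 6,
     .LO 0 1 2 7 0,
     .LO 0 1 3 7 4,
     .LI 0 1 3 13 2,
     .LO 0 1 5 7 4,
     .LI 0 1 5 8 6,
     .LO 1 2 3 12 6,
     .LI 1 2 3 13 2,
     .LI 1 2 5 8 6,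
     .LO 1 2 5 12 2,
     .LI 2 3 4 16 2,
     .LI 2 5 6 9 6,
     .C 0 1 2 3 1 1,
     .C 0 1 2 5 0 1,
     .C 0 1 3 4 0 2,
     .C 0 1 5 6 1 2,
     .C 1 2 3 4 1 1,
     .C 1 2 5 6 0 1,
     .T 0 1 2 3 4 2 0,
     .T 0 1 2 5 6 2 1]
    [([1036, 1038], [], [0, 8]),
     ([1041, 1043], [], [0, 9]),
     ([], [1043], [2, 10]),
     ([1041], [], [29, 28]),
     ([1049, 1051], [], [0, 11]),
     ([], [1049], [3, 12]),
     ([1051], [], [32, 31]),
     ([1266], [], [1, 13]),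
     ([], [1267], [4, 14]),
     ([], [1273], [5, 15]),
     ([1272], [], [1, 16]),
     ([], [1495], [6, 17]),
     ([], [1557], [7, 18]),
     ([2466], [1038], [35, 19]),
     ([], [2468, 1036], [36, 20]),
     ([], [2474], [30, 21]),
     ([2490], [], [33, 22]),
     ([2866], [], [38, 34, 23]),
     ([], [2882], [39, 37, 24]),
     ([], [2466], [42, 44, 25]),
     ([], [1038], [46, 40]),
     ([1036], [], [47, 27]),
     ([], [2468], [48, 41]),
     ([], [], [49, 45, 43, 26])] = true := by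
  decide +kernel

theorem cert19 : check ([20, 19, 23, 26, 27, 32, 33].map em)
    [.G 0 3,
     .G 1 2,
     .G 2 4,
     .G 3 5,
     .G 4 5,
     .G 4 6,
     .G 5 6,
     .LO 0 3 4 10 6,
     .LO 1 2 4 3 2,
     .LI 2 4 5 7 6,
     .LO 2 4 6 6 2,
     .LI 2 4 6 12 4,
     .LI 3 4 5 7 2,
     .LO 3 5 6 11 6,
     .LI 3 5 6 12 4,
     .LI 4 5 6 12 4,
     .C 0 3 4 5 1 1,
     .C 0 3 5 6 0 0,
     .C 1 2 4 5 0 1,
     .C 1 2 4 6 1 0,
     .C 2 4 5 6 0 0,
     .C 3 4 5 6 1 0,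
     .T 0 3 4 5 6 2 0,
     .T 1 2 4 5 6 3 1]
    [([1102], [], [0, 7]),
     ([1268], [], [1, 8]),
     ([], [1525], [4, 9]),
     ([1528], [], [2, 10]),
     ([], [1530], [5, 27, 11]),
     ([], [1723], [4, 12]),
     ([1754], [], [3, 13]),
     ([], [1752], [6, 30, 14]),
     ([], [1948, 1950], [6, 15]),
     ([2580], [], [29, 24, 16]),
     ([], [2588], [31, 17]),
     ([], [2874], [26, 25, 18]),
     ([2875], [], [28, 19]),
     ([], [3666], [34, 33, 22]),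
     ([1950], [], [37, 21]),
     ([], [1948], [38, 32]),
     ([], [3323], [39, 20]),
     ([], [], [35, 40, 36, 23])] = true := by
  decide +kernel

theorem cert20 : check ([19, 23, 20, 26, 27, 32, 33].map em)
    [.G 0 1,
     .G 1 4,
     .G 2 3,
     .G 3 5,
     .G 4 5,
     .G 4 6,
     .G 5 6,
     .LO 0 1 4 3 2,
     .LI 1 4 5 7 6,
     .LO 1 4 6 6 2,
     .LI 1 4 6 12 4,
     .LO 2 3 4 10 6,
     .LI 3 4 5 7 2,
     .LO 3 5 6 11 6,
     .LI 3 5 6 12 4,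
     .LI 4 5 6 12 4,
     .C 0 1 4 5 0 1,
     .C 0 1 4 6 1 0,
     .C 1 4 5 6 0 0,
     .C 2 3 4 5 1 1,
     .C 2 3 5 6 0 0,
     .C 3 4 5 6 1 0,
     .T 0 1 4 5 6 3 1,
     .T 2 3 4 5 6 2 0]
    [([1044], [], [0, 7]),
     ([], [1329], [4, 8]),
     ([1332], [], [1, 9]),
     ([], [1334], [5, 26, 10]),
     ([1494], [], [2, 11]),
     ([], [1723], [4, 12]),
     ([1754], [], [3, 13]),
     ([], [1752], [6, 30, 14]),
     ([], [1948, 1950], [6, 15]),
     ([], [2482], [25, 24, 16]),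
     ([2483], [], [27, 17]),
     ([3266], [], [29, 28, 19]),
     ([], [3274], [31, 20]),
     ([2980], [], [33, 34, 22]),
     ([1948], [], [37, 18]),
     ([], [1950], [38, 32]),
     ([3666], [], [39, 21]),
     ([], [], [36, 35, 40, 23])] = true := by
  decide +kernel

theorem cert21 : check ([20, 19, 26, 23, 27, 32, 33].map em)
    [.G 0 2,
     .G 1 3,
     .G 2 5,
     .G 3 4,
     .G 4 5,
     .G 4 6,
     .G 5 6,
     .LO 0 2 4 10 6,
     .LO 1 3 4 3 2,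
     .LI 2 4 5 7 2,
     .LO 2 5 6 11 6,
     .LI 2 5 6 12 4,
     .LI 3 4 5 7 6,
     .LO 3 4 6 6 2,
     .LI 3 4 6 12 4,
     .LI 4 5 6 12 4,
     .C 0 2 4 5 1 1,
     .C 0 2 5 6 0 0,
     .C 1 3 4 5 0 1,
     .C 1 3 4 6 1 0,
     .C 2 4 5 6 1 0,
     .C 3 4 5 6 0 0,
     .T 0 2 4 5 6 2 0,
     .T 1 3 4 5 6 3 1]
    [([1074], [], [0, 7]),
     ([1296], [], [1, 8]),
     ([], [1527], [4, 9]),
     ([1558], [], [2, 10]),
     ([], [1556], [6, 27, 11]),
     ([], [1721], [4, 12]),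
     ([1724], [], [3, 13]),
     ([], [1726], [5, 30, 14]),
     ([], [1948, 1950], [6, 15]),
     ([2531], [], [26, 24, 16]),
     ([], [2539], [28, 17]),
     ([], [2923], [29, 25, 18]),
     ([2924], [], [31, 19]),
     ([], [3323], [34, 33, 22]),
     ([1950], [], [37, 20]),
     ([], [1948], [38, 32]),
     ([], [3666], [39, 21]),
     ([], [], [35, 40, 36, 23])] = true := by
  decide +kernel

theorem cert22 : check ([16, 22, 19, 23, 27, 28, 33].map em)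
    [.G 0 1,
     .G 1 3,
     .G 1 5,
     .G 2 3,
     .G 3 4,
     .G 4 5,
     .G 4 6,
     .G 5 6,
     .LO 0 1 4 10 6,
     .LI 1 3 4 6 6,
     .LO 1 3 4 11 3,
     .LI 1 4 5 7 2,
     .LO 1 5 6 11 6,
     .LI 1 5 6 12 4,
     .LO 2 3 4 3 2,
     .LO 3 4 5 6 2,
     .LI 3 4 5 7 2,
     .LI 3 4 5 7 6,
     .LO 3 4 6 6 2,
     .LI 3 4 6 12 4,
     .LI 4 5 6 6 6,
     .C 0 1 4 5 1 1,
     .C 0 1 5 6 0 0,
     .C 1 3 4 5 1 1,
     .C 2 3 4 5 0 1,
     .C 2 3 4 6 1 0,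
     .C 3 4 5 6 0 1,
     .T 0 1 4 5 6 2 0,
     .T 1 3 4 5 6 1 0,
     .T 2 3 4 5 6 3 1]
    [([1046], [], [0, 8]),
     ([], [1297], [4, 9]),
     ([1298], [], [31, 1, 10]),
     ([], [1331], [5, 11]),
     ([1362], [], [2, 12]),
     ([], [832, 1360], [34, 13]),
     ([1492], [], [3, 14]),
     ([1720], [], [4, 15]),
     ([], [1723], [5, 16]),
     ([], [1721], [5, 17]),
     ([1724], [], [4, 18]),
     ([], [1726], [6, 40, 19]),
     ([2482], [], [33, 30, 21]),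
     ([2923], [], [38, 32, 23]),
     ([], [3266], [39, 36, 24]),
     ([3267], [], [41, 25]),
     ([1949], [3666], [37, 26]),
     ([2490], [2980], [42, 27]),
     ([2980], [3666], [43, 28]),
     ([3666], [], [44, 45, 29]),
     ([1949], [], [49, 46]),
     ([2980], [], [49, 48]),
     ([], [826], [50, 20]),
     ([2490], [], [51, 47]),
     ([832], [], [52, 7]),
     ([1360], [], [53, 22]),
     ([], [], [54, 55, 35])] = true := by
  decide +kernel

theorem cert23 : check ([15, 21, 24, 28, 27, 32, 33].map em)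
    [.G 0 1,
     .G 1 4,
     .G 2 3,
     .G 3 5,
     .G 4 5,
     .G 4 6,
     .G 5 6,
     .LO 0 1 4 10 6,
     .LI 1 4 5 7 2,
     .LO 1 4 6 11 6,
     .LI 1 4 6 12 4,
     .LO 2 3 4 3 2,
     .LI 3 4 5 7 6,
     .LO 3 5 6 6 2,
     .LI 3 5 6 12 4,
     .LI 4 5 6 12 4,
     .C 0 1 4 5 1 1,
     .C 0 1 4 6 0 0,
     .C 1 4 5 6 1 0,
     .C 2 3 4 5 0 1,
     .C 2 3 5 6 1 0,
     .C 3 4 5 6 0 0,
     .T 0 1 4 5 6 3 0,
     .T 2 3 4 5 6 2 1]
    [([1046], [], [0, 7]),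
     ([], [1331], [4, 8]),
     ([1334], [], [1, 9]),
     ([], [1332], [5, 26, 10]),
     ([1492], [], [2, 11]),
     ([], [1721], [4, 12]),
     ([1752], [], [3, 13]),
     ([], [1754], [6, 30, 14]),
     ([], [1948, 1950], [6, 15]),
     ([2482], [], [25, 24, 16]),
     ([], [2483], [27, 17]),
     ([], [3266], [29, 28, 19]),
     ([3274], [], [31, 20]),
     ([], [2980], [34, 33, 22]),
     ([1950], [], [37, 18]),
     ([], [1948], [38, 32]),
     ([], [3666], [39, 21]),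
     ([], [], [35, 40, 36, 23])] = true := by
  decide +kernel

theorem cert24 : check ([18, 15, 22, 21, 27, 26, 33].map em)
    [.G 0 2,
     .G 1 3,
     .G 2 5,
     .G 3 4,
     .G 4 5,
     .G 4 6,
     .G 5 6,
     .LO 0 2 4 3 2,
     .LO 1 3 4 10 6,
     .LI 2 4 5 7 6,
     .LO 2 5 6 6 2,
     .LI 2 5 6 12 4,
     .LI 3 4 5 7 2,
     .LI 3 4 5 7 6,
     .LO 3 4 5 11 3,
     .LO 3 4 6 11 6,
     .LI 3 4 6 12 4,
     .LI 4 5 6 11 2,
     .LI 4 5 6 12 4,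
     .C 0 2 4 5 0 1,
     .C 0 2 5 6 1 0,
     .C 1 3 4 5 1 1,
     .C 1 3 4 6 0 0,
     .C 2 4 5 6 0 0,
     .C 3 4 5 6 1 0,
     .C 3 4 5 6 1 1,
     .T 0 2 4 5 6 2 1,
     .T 1 3 4 5 6 3 0]
    [([1072], [], [0, 7]),
     ([1298], [], [1, 8]),
     ([], [1525], [4, 9]),
     ([1556], [], [2, 10]),
     ([], [832, 1558], [31, 11]),
     ([], [1723], [4, 12]),
     ([], [1721], [4, 13]),
     ([1722], [], [34, 3, 14]),
     ([1726], [], [3, 15]),
     ([], [1724], [5, 36, 16]),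
     ([], [2531], [30, 28, 19]),
     ([2923], [], [33, 29, 21]),
     ([], [2924], [37, 22]),
     ([3666, 1951], [], [35, 25]),
     ([3323], [2539], [38, 26]),
     ([], [3666], [40, 39, 27]),
     ([1950], [], [43, 24]),
     ([1951], [], [43, 41]),
     ([], [831], [45, 17]),
     ([832], [], [46, 6]),
     ([], [1558], [47, 32]),
     ([], [1948], [47, 44, 18]),
     ([2539], [], [48, 20]),
     ([], [3323], [49, 23]),
     ([], [], [51, 50, 42])] = true := by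
  decide +kernel

theorem cert25 : check ([18, 22, 15, 21, 27, 26, 33].map em)
    [.G 0 1,
     .G 1 3,
     .G 1 5,
     .G 2 3,
     .G 3 4,
     .G 4 5,
     .G 4 6,
     .G 5 6,
     .LO 0 1 4 3 2,
     .LO 1 3 4 6 2,
     .LI 1 4 5 7 6,
     .LO 1 5 6 6 2,
     .LI 1 5 6 12 4,
     .LO 2 3 4 10 6,
     .LI 3 4 5 7 2,
     .LI 3 4 5 7 6,
     .LO 3 4 5 11 3,
     .LO 3 4 6 11 6,
     .LI 3 4 6 12 4,
     .LI 4 5 6 11 2,
     .C 0 1 4 5 0 1,
     .C 0 1 5 6 1 0,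
     .C 1 3 4 5 0 1,
     .C 2 3 4 5 1 1,
     .C 2 3 4 6 0 0,
     .C 3 4 5 6 1 1,
     .T 0 1 4 5 6 2 1,
     .T 1 3 4 5 6 1 1,
     .T 2 3 4 5 6 3 0]
    [([1044], [], [0, 8]),
     ([1296], [], [1, 9]),
     ([], [1329], [5, 10]),
     ([1360], [], [2, 11]),
     ([], [832, 1362], [32, 12]),
     ([1494], [], [3, 13]),
     ([], [1723], [5, 14]),
     ([], [1721], [5, 15]),
     ([1722], [], [36, 4, 16]),
     ([1726], [], [4, 17]),
     ([], [1724], [6, 38, 18]),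
     ([], [2482], [31, 29, 20]),
     ([], [2923], [36, 30, 22]),
     ([3266], [], [35, 34, 23]),
     ([], [3267], [39, 24]),
     ([3666, 1951], [], [37, 25]),
     ([2980], [2490], [40, 26]),
     ([3666], [2980], [41, 27]),
     ([], [3666], [43, 42, 28]),
     ([1951], [], [47, 44]),
     ([], [2980], [47, 46]),
     ([], [831], [48, 19]),
     ([], [2490], [49, 45]),
     ([832], [], [50, 7]),
     ([1362], [], [51, 21]),
     ([], [], [52, 53, 33])] = true := by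
  decide +kernel

theorem cert26 : check ([15, 18, 22, 21, 27, 26, 33].map em)
    [.G 0 3,
     .G 1 2,
     .G 2 5,
     .G 3 4,
     .G 4 5,
     .G 4 6,
     .G 5 6,
     .LO 0 3 4 10 6,
     .LO 1 2 4 3 2,
     .LI 2 4 5 7 6,
     .LO 2 5 6 6 2,
     .LI 2 5 6 12 4,
     .LI 3 4 5 7 2,
     .LI 3 4 5 7 6,
     .LO 3 4 5 11 3,
     .LO 3 4 6 11 6,
     .LI 3 4 6 12 4,
     .LI 4 5 6 11 2,
     .LI 4 5 6 12 4,
     .C 0 3 4 5 1 1,
     .C 0 3 4 6 0 0,
     .C 1 2 4 5 0 1,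
     .C 1 2 5 6 1 0,
     .C 2 4 5 6 0 0,
     .C 3 4 5 6 1 0,
     .C 3 4 5 6 1 1,
     .T 0 3 4 5 6 3 0,
     .T 1 2 4 5 6 2 1]
    [([1102], [], [0, 7]),
     ([1268], [], [1, 8]),
     ([], [1525], [4, 9]),
     ([1556], [], [2, 10]),
     ([], [832, 1558], [31, 11]),
     ([], [1723], [4, 12]),
     ([], [1721], [4, 13]),
     ([1722], [], [34, 3, 14]),
     ([1726], [], [3, 15]),
     ([], [1724], [5, 36, 16]),
     ([2580], [], [33, 28, 19]),
     ([], [2581], [37, 20]),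
     ([], [2874], [30, 29, 21]),
     ([3666, 1951], [], [35, 25]),
     ([], [3666], [39, 38, 26]),
     ([1950], [], [42, 24]),
     ([1951], [], [42, 41]),
     ([], [831], [44, 17]),
     ([832], [], [45, 6]),
     ([], [1558], [46, 32]),
     ([], [1948], [46, 43, 18]),
     ([2882], [], [47, 22]),
     ([], [3323], [48, 23]),
     ([], [], [40, 50, 49, 27])] = true := by
  decide +kernel

theorem cert27 : check ([11, 17, 19, 23, 21, 22, 33].map em)
    [.G 0 1,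
     .G 1 3,
     .G 2 3,
     .G 3 4,
     .G 3 5,
     .G 3 6,
     .G 4 5,
     .G 4 6,
     .LO 0 1 3 10 6,
     .LI 1 3 4 6 6,
     .LO 1 3 4 11 3,
     .LI 1 3 5 7 2,
     .LI 1 3 6 6 4,
     .LO 1 3 6 11 6,
     .LI 1 3 6 12 4,
     .LO 2 3 4 3 2,
     .LI 3 4 5 7 2,
     .LI 3 4 5 7 6,
     .LO 3 4 6 6 2,
     .LI 3 4 6 11 4,
     .LI 3 4 6 12 4,
     .C 0 1 3 5 1 1,
     .C 0 1 3 6 0 0,
     .C 1 3 4 5 1 1,
     .C 2 3 4 5 0 1,
     .C 2 3 4 6 1 0,
     .T 0 1 3 5 6 3 0,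
     .T 1 3 4 5 6 2 0,
     .T 2 3 4 5 6 3 1]
    [([1042], [], [0, 8]),
     ([], [1297], [3, 9]),
     ([1298], [], [30, 1, 10]),
     ([], [1303], [4, 11]),
     ([1306], [], [1, 13]),
     ([], [552, 1304], [33, 14]),
     ([1492], [], [2, 15]),
     ([], [1723], [6, 16]),
     ([], [1721], [6, 17]),
     ([1724], [], [3, 18]),
     ([], [691, 1726], [38, 19]),
     ([], [692, 1726], [38, 20]),
     ([2475], [], [32, 29, 21]),
     ([2923], [], [36, 31, 23]),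
     ([], [3266], [37, 35, 24]),
     ([2476], [2931], [41, 26]),
     ([2931], [3666], [42, 27]),
     ([3666], [3267], [43, 28]),
     ([], [1304], [33, 12, 34, 5]),
     ([], [2476], [47, 22]),
     ([], [2931], [48, 44]),
     ([], [3666], [49, 45]),
     ([], [3267], [50, 46]),
     ([1726], [], [51, 25]),
     ([], [691], [52, 39]),
     ([], [692], [52, 40]),
     ([], [], [53, 54, 7])] = true := by
  decide +kernel

theorem cert28 : check ([19, 20, 23, 26, 27, 32, 33].map em)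
    [.G 0 2,
     .G 1 3,
     .G 2 4,
     .G 3 5,
     .G 4 5,
     .G 4 6,
     .G 5 6,
     .LO 0 2 4 3 2,
     .LO 1 3 4 10 6,
     .LI 2 4 5 7 6,
     .LO 2 4 6 6 2,
     .LI 2 4 6 12 4,
     .LI 3 4 5 7 2,
     .LO 3 5 6 11 6,
     .LI 3 5 6 12 4,
     .LI 4 5 6 12 4,
     .C 0 2 4 5 0 1,
     .C 0 2 4 6 1 0,
     .C 1 3 4 5 1 1,
     .C 1 3 5 6 0 0,
     .C 2 4 5 6 0 0,
     .C 3 4 5 6 1 0,
     .T 0 2 4 5 6 3 1,
     .T 1 3 4 5 6 2 0]
    [([1072], [], [0, 7]),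
     ([1298], [], [1, 8]),
     ([], [1525], [4, 9]),
     ([1528], [], [2, 10]),
     ([], [1530], [5, 27, 11]),
     ([], [1723], [4, 12]),
     ([1754], [], [3, 13]),
     ([], [1752], [6, 30, 14]),
     ([], [1948, 1950], [6, 15]),
     ([], [2531], [26, 24, 16]),
     ([2532], [], [28, 17]),
     ([2923], [], [29, 25, 18]),
     ([], [2931], [31, 19]),
     ([3323], [], [33, 34, 22]),
     ([1948], [], [37, 20]),
     ([], [1950], [38, 32]),
     ([3666], [], [39, 21]),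
     ([], [], [36, 35, 40, 23])] = true := by
  decide +kernel

end Q119.TP
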