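import Mathlib

/-!
# Enumeration of the closed sets of a finite poset given by bit masks
-/

set_option autoImplicit false

namespace Q119.TP

/-- the closed sets of the first `n` points; `need i` is the mask of the points below `i` -/
def enum (need : ℕ → ℕ) : ℕ → List ℕ
  | 0 => [0]
  | n + 1 => enum need n ++
      ((enum need n).filter (fun m => Nat.beq (Nat.land m (need n)) (need n))).map
        (fun m => m + 2 ^ n)

theorem testBit_mod_two_pow' (m n j : ℕ) :
    (m % 2 ^ n).testBit j = (decide (j < n) && m.testBit j) := Nat.testBit_mod_two_pow m n j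

theorem mem_enum (need : ℕ → ℕ) (hneed : ∀ i j, (need i).testBit j = true → j < i) (m : ℕ)
    (hc : ∀ i, m.testBit i = true → ∀ j, (need i).testBit j = true → m.testBit j = true) :
    ∀ n, m % 2 ^ n ∈ enum need n := by
  intro n
  induction n with
  | zero => simp [enum, Nat.mod_one]
  | succ n ih =>
    rw [Nat.mod_pow_succ]
    cases hb : m.testBit n with
    | false =>
      have h0 : m / 2 ^ n % 2 = 0 := by
        rw [Nat.testBit_eq_decide_div_mod_eq] at hb
        have := of_decide_eq_false hb
        omega
      rw [h0, Nat.mul_zero, Nat.add_zero]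
      exact List.mem_append_left _ ih
    | true =>
      have h0 : m / 2 ^ n % 2 = 1 := by
        rw [Nat.testBit_eq_decide_div_mod_eq] at hb
        exact of_decide_eq_true hb
      rw [h0, Nat.mul_one]
      refine List.mem_append_right _ (List.mem_map.2 ⟨m % 2 ^ n, ?_, rfl⟩)
      refine List.mem_filter.2 ⟨ih, ?_⟩
      show Nat.beq ((m % 2 ^ n) &&& need n) (need n) = true
      rw [Nat.beq_eq]
      apply Nat.eq_of_testBit_eq
      intro j
      rw [Nat.testBit_land, testBit_mod_two_pow']
      cases hj : (need n).testBit j with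
      | false => simp
      | true =>
        have h1 := hneed n j hj
        have h2 := hc n hb j hj
        simp [h1, h2]

/-- the points below `p` in the `3 × 3` grid; the point `(a, b)` is `3 a + b` -/
def needP (i : ℕ) : ℕ := [0, 1, 3, 1, 11, 31, 9, 91, 255].getD i 0

/-- the closed subsets of the grid -/
def tabD : List ℕ := [0, 1, 3, 7, 9, 11, 15, 27, 31, 63, 73, 75, 79, 91, 95, 127, 219, 223, 255, 511]

/-- the `A`-th closed subset of the grid -/
def dm (A : ℕ) : ℕ := tabD.getD A 0

/-- the closed subsets contained in the `A`-th one -/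
def needD (i : ℕ) : ℕ := [0, 1, 3, 7, 3, 23, 63, 55, 255, 511, 19, 1079, 3199, 3255, 15871, 32767, 11447, 97791, 262143, 524287].getD i 0

/-- the closed families of closed subsets of the grid -/
def tabE : List ℕ := [0, 1, 3, 7, 19, 15, 23, 1043, 31, 55, 1047, 63, 183, 1055, 1079, 127, 191, 1087, 1207, 3127, 255, 1151, 1215, 3135, 3255, 511, 1279, 3199, 3263, 11447, 1023, 1535, 3327, 7295, 11455, 76983, 2047, 3583, 7423, 11519, 76991, 4095, 7679, 11775, 15615, 77055, 8191, 12287, 15871, 77311, 81151, 16383, 32255, 77823, 81407, 32767, 81919, 97791, 65535, 98303, 228863, 131071, 229375, 262143, 524287, 1048575]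

/-- the `a`-th closed family -/
def em (a : ℕ) : ℕ := tabE.getD a 0

end Q119.TP
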