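import Pool.Agent.Q119.TP.OrderData

/-!
# No transitive colouring on 66 vertices; a colouring on 66 vertices
-/

set_option autoImplicit false

namespace Q119.TP

theorem em_inj {a b : ℕ} (ha : a < 66) (hb : b < 66) (h : em a = em b) : a = b := by
  have hself : ∀ m : ℕ, Nat.beq (Nat.land m m) m = true := fun m => by
    rw [sub_iff]; exact fun _ h => h
  rcases lt_trichotomy a b with h1 | h1 | h1
  · have := em_order h1 hb
    rw [h, hself] at this
    exact Bool.noConfusion this
  · exact h1
  · have := em_order h1 ha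
    rw [h, hself] at this
    exact Bool.noConfusion this

theorem seqs_ok : (seqs.all (fun W => Nat.beq W.length 7 && W.all (fun a => Nat.blt a 66))) = true := by
  decide

theorem imp_of_cert {f : ℕ → ℕ → ℕ → ℕ → Fin 2} (hno : NoPath f 66) (htr : Trans4 f 66)
    {pos : ℕ → ℕ} (hpos : ∀ a < 66, 1 ≤ pos a ∧ pos a ≤ 66 ∧ hm f (pos a) = em a)
    (W : List ℕ) (hW : W ∈ seqs) {as : List Ax} {st : List (List ℕ × List ℕ × List ℕ)}
    (h : check (W.map em) as st = true) : Imp pos W := by
  intro hinc
  have h0 := List.all_eq_true.1 seqs_ok W hW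
  rw [Bool.and_eq_true, Nat.beq_eq, List.all_eq_true] at h0
  obtain ⟨hlen, hall⟩ := h0
  have hlt : ∀ i < 7, W.getD i 0 < 66 := by
    intro i hi
    rw [List.getD_eq_getElem _ _ (by omega)]
    have := hall _ (List.getElem_mem (show i < W.length by omega))
    rwa [Nat.blt_eq] at this
  have hinc2 : ∀ d i, i + d + 1 < 7 → pos (W.getD i 0) < pos (W.getD (i + d + 1) 0) := by
    intro d
    induction d with
    | zero => intro i hi; exact hinc i (by omega)
    | succ d ih =>
      intro i hi
      exact (ih i (by omega)).trans (hinc (i + d + 1) (by omega))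
  refine check_sound h (f := f) (N := 66) (x := fun i => pos (W.getD i 0)) ⟨hno, htr, ?_, ?_, ?_, ?_⟩
  · intro i hi
    exact (hpos _ (hlt i hi)).1
  · intro i hi
    exact (hpos _ (hlt i hi)).2.1
  · intro i j hij hj
    obtain ⟨d, rfl⟩ : ∃ d, j = i + d + 1 := ⟨j - i - 1, by omega⟩
    exact hinc2 d i hj
  · intro i hi
    show hm f (pos (W.getD i 0)) = _
    rw [(hpos _ (hlt i hi)).2.2, List.getD_eq_getElem (W.map em) 0 (by rw [List.length_map]; omega),
      List.getElem_map, List.getD_eq_getElem W 0 (by omega)]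

theorem no66 (f : ℕ → ℕ → ℕ → ℕ → Fin 2) (hno : NoPath f 66) (htr : Trans4 f 66) : False := by
  choose! pos hpos using exists_pos hno
  have hinj : ∀ a b, a < 66 → b < 66 → pos a = pos b → a = b := by
    intro a b ha hb h
    refine em_inj ha hb ?_
    rw [← (hpos a ha).2.2, ← (hpos b hb).2.2, h]
  refine ocheck_sound order_cert (pos := pos) hinj ?_ ?_
  · intro a b ha hb hab hs
    by_contra hcon
    have hne : pos a ≠ pos b := fun h => hab (hinj a b ha hb h)
    have h1 := hm_not_sub hno (hpos b hb).1 (show pos b < pos a by omega) (hpos a ha).2.1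
    rw [(hpos a ha).2.2, (hpos b hb).2.2, hs] at h1
    exact Bool.noConfusion h1
  · intro i hi
    have key : ∀ (W : List ℕ), seqs.getD i [] = W → W ∈ seqs := by
      intro W hW
      rw [← hW, List.getD_eq_getElem _ _ (show i < seqs.length from hi)]
      exact List.getElem_mem _
    have hmem := key _ rfl
    revert hmem
    interval_cases i
    · exact fun h => imp_of_cert hno htr hpos _ h cert0
    · exact fun h => imp_of_cert hno htr hpos _ h cert1
    · exact fun h => imp_of_cert hno htr hpos _ h cert2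
    · exact fun h => imp_of_cert hno htr hpos _ h cert3
    · exact fun h => imp_of_cert hno htr hpos _ h cert4
    · exact fun h => imp_of_cert hno htr hpos _ h cert5
    · exact fun h => imp_of_cert hno htr hpos _ h cert6
    · exact fun h => imp_of_cert hno htr hpos _ h cert7
    · exact fun h => imp_of_cert hno htr hpos _ h cert8
    · exact fun h => imp_of_cert hno htr hpos _ h cert9
    · exact fun h => imp_of_cert hno htr hpos _ h cert10
    · exact fun h => imp_of_cert hno htr hpos _ h cert11
    · exact fun h => imp_of_cert hno htr hpos _ h cert12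
    · exact fun h => imp_of_cert hno htr hpos _ h cert13
    · exact fun h => imp_of_cert hno htr hpos _ h cert14
    · exact fun h => imp_of_cert hno htr hpos _ h cert15
    · exact fun h => imp_of_cert hno htr hpos _ h cert16
    · exact fun h => imp_of_cert hno htr hpos _ h cert17
    · exact fun h => imp_of_cert hno htr hpos _ h cert18
    · exact fun h => imp_of_cert hno htr hpos _ h cert19
    · exact fun h => imp_of_cert hno htr hpos _ h cert20
    · exact fun h => imp_of_cert hno htr hpos _ h cert21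
    · exact fun h => imp_of_cert hno htr hpos _ h cert22
    · exact fun h => imp_of_cert hno htr hpos _ h cert23
    · exact fun h => imp_of_cert hno htr hpos _ h cert24
    · exact fun h => imp_of_cert hno htr hpos _ h cert25
    · exact fun h => imp_of_cert hno htr hpos _ h cert26
    · exact fun h => imp_of_cert hno htr hpos _ h cert27
    · exact fun h => imp_of_cert hno htr hpos _ h cert28

/-! ### a colouring on 66 vertices -/

theorem exists_diff {a b : ℕ} (h : Nat.beq (Nat.land a b) a = false) :
    ∃ j, a.testBit j = true ∧ b.testBit j = false := by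
  by_contra hcon
  push Not at hcon
  have : Nat.beq (Nat.land a b) a = true := by
    rw [sub_iff]
    intro j hj
    have := hcon j hj
    rwa [ne_eq, Bool.not_eq_false] at this
  rw [this] at h
  exact Bool.noConfusion h

theorem sort4 {a b c d : ℕ} (h1 : a < b) (h2 : b < c) (h3 : c < d) :
    ({a, b, c, d} : Finset ℕ).sort (· ≤ ·) = [a, b, c, d] := by
  rw [Finset.sort_insert, Finset.sort_insert, Finset.sort_insert, Finset.sort_singleton]
  all_goals simp
  all_goals omega

theorem exists_col : ∃ c : Finset ℕ → Fin 2, ∀ x : ℕ → ℕ, (∀ s t, s < t → t < 6 → x s < x t) →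
    (∀ t < 6, 1 ≤ x t ∧ x t ≤ 66) → ∀ i : Fin 2,
      (∀ j < 3, c {x j, x (j + 1), x (j + 2), x (j + 3)} = i) → False := by
  classical
  have hg : ∀ x y : ℕ, ∃ A : ℕ, 1 ≤ x → x < y → y ≤ 66 →
      (em (y - 1)).testBit A = true ∧ (em (x - 1)).testBit A = false := by
    intro x y
    by_cases h : 1 ≤ x ∧ x < y ∧ y ≤ 66
    · obtain ⟨j, h1, h2⟩ := exists_diff (em_order (show x - 1 < y - 1 by omega)
        (show y - 1 < 66 by omega))
      exact ⟨j, fun _ _ _ => ⟨h1, h2⟩⟩
    · exact ⟨0, fun h1 h2 h3 => (h ⟨h1, h2, h3⟩).elim⟩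
  choose g hg using hg
  have hL : ∀ x y z : ℕ, ∃ p : ℕ, 1 ≤ x → x < y → y < z → z ≤ 66 →
      (dm (g y z)).testBit p = true ∧ (dm (g x y)).testBit p = false := by
    intro x y z
    by_cases h : 1 ≤ x ∧ x < y ∧ y < z ∧ z ≤ 66
    · obtain ⟨h1, h2⟩ := hg x y h.1 h.2.1 (by omega)
      obtain ⟨h3, h4⟩ := hg y z (by omega) h.2.2.1 h.2.2.2
      have h5 := lt_of_testBit (em_lt (show z - 1 < 66 by omega)) h3
      have h6 : Nat.beq (Nat.land (dm (g y z)) (dm (g x y))) (dm (g y z)) = false := by
        by_contra hcon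
        rw [Bool.not_eq_false] at hcon
        have := em_closed (show y - 1 < 66 by omega) h5 h1 hcon
        rw [this] at h4
        exact Bool.noConfusion h4
      obtain ⟨p, hp1, hp2⟩ := exists_diff h6
      exact ⟨p, fun _ _ _ _ => ⟨hp1, hp2⟩⟩
    · exact ⟨0, fun h1 h2 h3 h4 => (h ⟨h1, h2, h3, h4⟩).elim⟩
  choose L hL using hL
  refine ⟨fun S => match S.sort (· ≤ ·) with
    | [a, b, c, d] => if L a b c / 3 < L b c d / 3 then 0 else 1
    | _ => 0, ?_⟩
  intro x hx hb i hc
  have hc' : ∀ j < 3, (if L (x j) (x (j + 1)) (x (j + 2)) / 3 <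
      L (x (j + 1)) (x (j + 2)) (x (j + 3)) / 3 then (0 : Fin 2) else 1) = i := by
    intro j hj
    rw [← hc j hj]
    beta_reduce
    rw [sort4 (hx j (j + 1) (by omega) (by omega)) (hx (j + 1) (j + 2) (by omega) (by omega))
      (hx (j + 2) (j + 3) (by omega) (by omega))]
  have hp : ∀ j < 4, (dm (g (x (j + 1)) (x (j + 2)))).testBit (L (x j) (x (j + 1)) (x (j + 2))) = true ∧
      (dm (g (x j) (x (j + 1)))).testBit (L (x j) (x (j + 1)) (x (j + 2))) = false := by
    intro j hj
    exact hL _ _ _ (hb j (by omega)).1 (hx j (j + 1) (by omega) (by omega))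
      (hx (j + 1) (j + 2) (by omega) (by omega)) (hb (j + 2) (by omega)).2
  have hg20 : ∀ j < 5, g (x j) (x (j + 1)) < 20 := by
    intro j hj
    exact lt_of_testBit (em_lt (show x (j + 1) - 1 < 66 by have := (hb (j + 1) (by omega)); omega))
      (hg _ _ (hb j (by omega)).1 (hx j (j + 1) (by omega) (by omega)) (hb (j + 1) (by omega)).2).1
  have hp9 : ∀ j < 4, L (x j) (x (j + 1)) (x (j + 2)) < 9 := by
    intro j hj
    exact lt_of_testBit (dm_lt (hg20 (j + 1) (by omega))) (hp j hj).1
  -- consecutive cells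
  have hstep : ∀ j < 3, ¬ (L (x (j + 1)) (x (j + 2)) (x (j + 3)) / 3 ≤
        L (x j) (x (j + 1)) (x (j + 2)) / 3 ∧
      L (x (j + 1)) (x (j + 2)) (x (j + 3)) % 3 ≤ L (x j) (x (j + 1)) (x (j + 2)) % 3) := by
    rintro j hj ⟨h1, h2⟩
    have h3 := dm_closed (hg20 (j + 1) (by omega)) (hp9 (j + 1) (by omega)) (hp j (by omega)).1 h1 h2
    have h4 := (hp (j + 1) (by omega)).2
    change (dm (g (x (j + 1)) (x (j + 2)))).testBit (L (x (j + 1)) (x (j + 2)) (x (j + 3))) = false at h4
    rw [h3] at h4
    exact Bool.noConfusion h4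
  have c0 := hc' 0 (by omega)
  have c1 := hc' 1 (by omega)
  have c2 := hc' 2 (by omega)
  have s0 := hstep 0 (by omega)
  have s1 := hstep 1 (by omega)
  have s2 := hstep 2 (by omega)
  have q0 := hp9 0 (by omega)
  have q3 := hp9 3 (by omega)
  simp only [Nat.reduceAdd] at c0 c1 c2 s0 s1 s2 q0 q3
  generalize L (x 0) (x 1) (x 2) = p0 at *
  generalize L (x 1) (x 2) (x 3) = p1 at *
  generalize L (x 2) (x 3) (x 4) = p2 at *
  generalize L (x 3) (x 4) (x 5) = p3 at *
  have hi : i = 0 ∨ i = 1 := by
    clear c0 c1 c2 hc hc'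
    revert i
    decide
  rcases hi with rfl | rfl
  · have d0 : p0 / 3 < p1 / 3 := by
      by_contra h; rw [if_neg h] at c0; exact absurd c0 (by decide)
    have d1 : p1 / 3 < p2 / 3 := by
      by_contra h; rw [if_neg h] at c1; exact absurd c1 (by decide)
    have d2 : p2 / 3 < p3 / 3 := by
      by_contra h; rw [if_neg h] at c2; exact absurd c2 (by decide)
    omega
  · have d0 : ¬ p0 / 3 < p1 / 3 := by
      intro h; rw [if_pos h] at c0; exact absurd c0 (by decide)
    have d1 : ¬ p1 / 3 < p2 / 3 := by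
      intro h; rw [if_pos h] at c1; exact absurd c1 (by decide)
    have d2 : ¬ p2 / 3 < p3 / 3 := by
      intro h; rw [if_pos h] at c2; exact absurd c2 (by decide)
    omega

end Q119.TP
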