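import Pool.Agent.Q119.TP.Data

/-!
# The order of the families
-/

set_option autoImplicit false

namespace Q119.TP

open Pool.Agent.H171R2.Rup

/-- no vertex sequence with the families of `W` -/
def Imp (pos : ℕ → ℕ) (W : List ℕ) : Prop :=
  ¬ ∀ i < 6, pos (W.getD i 0) < pos (W.getD (i + 1) 0)

/-- meaning of the variables -/
def oval (pos : ℕ → ℕ) (v : ℕ) : Prop := pos (v / 66) < pos (v % 66)

/-- add the literal `pos a < pos b` (`s = true`) or its negation to a clause -/
def addl (s : Bool) (a b : ℕ) (c : List ℕ × List ℕ) : List ℕ × List ℕ :=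
  match Nat.blt a b with
  | true => (match s with
    | true => ((a * 66 + b) :: c.1, c.2)
    | false => (c.1, (a * 66 + b) :: c.2))
  | false => (match s with
    | true => (c.1, (b * 66 + a) :: c.2)
    | false => ((b * 66 + a) :: c.1, c.2))

/-- a clause is true -/
def Tru (vl : ℕ → Prop) (c : List ℕ × List ℕ) : Prop := (∃ v ∈ c.1, vl v) ∨ (∃ v ∈ c.2, ¬ vl v)

theorem tru_cons1 (vl : ℕ → Prop) (v : ℕ) (p n : List ℕ) :
    Tru vl (v :: p, n) ↔ vl v ∨ Tru vl (p, n) := by
  unfold Tru
  simp only [List.mem_cons, exists_eq_or_imp]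
  exact or_assoc

theorem tru_cons2 (vl : ℕ → Prop) (v : ℕ) (p n : List ℕ) :
    Tru vl (p, v :: n) ↔ ¬ vl v ∨ Tru vl (p, n) := by
  unfold Tru
  simp only [List.mem_cons, exists_eq_or_imp]
  exact or_left_comm

/-- the meaning of a literal -/
def litT (pos : ℕ → ℕ) (s : Bool) (a b : ℕ) : Prop :=
  match s with
  | true => pos a < pos b
  | false => ¬ pos a < pos b

theorem tru_addl {pos : ℕ → ℕ} (hinj : ∀ a b, a < 66 → b < 66 → pos a = pos b → a = b) (s : Bool)
    {a b : ℕ} (ha : a < 66) (hb : b < 66) (hab : a ≠ b) (c : List ℕ × List ℕ) :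
    Tru (oval pos) (addl s a b c) ↔ litT pos s a b ∨ Tru (oval pos) c := by
  have hne : pos a ≠ pos b := fun h => hab (hinj a b ha hb h)
  obtain ⟨p, n⟩ := c
  unfold addl
  have e1 : (a * 66 + b) / 66 = a := by omega
  have e2 : (a * 66 + b) % 66 = b := by omega
  have e3 : (b * 66 + a) / 66 = b := by omega
  have e4 : (b * 66 + a) % 66 = a := by omega
  have o1 : oval pos (a * 66 + b) ↔ pos a < pos b := by unfold oval; rw [e1, e2]
  have o2 : oval pos (b * 66 + a) ↔ pos b < pos a := by unfold oval; rw [e3, e4]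
  have o3 : ¬ pos b < pos a ↔ pos a < pos b := by omega
  have o4 : pos b < pos a ↔ ¬ pos a < pos b := by omega
  cases s with
  | true =>
    cases Nat.blt a b with
    | true =>
      simp only [litT]
      rw [tru_cons1, o1]
    | false =>
      simp only [litT]
      rw [tru_cons2, o2, o3]
  | false =>
    cases Nat.blt a b with
    | true =>
      simp only [litT]
      rw [tru_cons2, o1]
    | false =>
      simp only [litT]
      rw [tru_cons1, o2, o4]

/-- some of the first `n` consecutive comparisons of `W` fails -/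
def negN (W : List ℕ) : ℕ → List ℕ × List ℕ
  | 0 => ([], [])
  | n + 1 => addl false (W.getD n 0) (W.getD (n + 1) 0) (negN W n)

/-- side condition for `negN` -/
def okN (W : List ℕ) : ℕ → Bool
  | 0 => true
  | n + 1 => Nat.blt (W.getD n 0) 66 && Nat.blt (W.getD (n + 1) 0) 66 &&
      !(Nat.beq (W.getD n 0) (W.getD (n + 1) 0)) && okN W n

theorem negN_valid {pos : ℕ → ℕ} (hinj : ∀ a b, a < 66 → b < 66 → pos a = pos b → a = b)
    (W : List ℕ) : ∀ n, okN W n = true →
      (¬ ∀ i < n, pos (W.getD i 0) < pos (W.getD (i + 1) 0)) → Tru (oval pos) (negN W n) := by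
  intro n
  induction n with
  | zero =>
    intro _ h
    exact (h (fun i hi => by omega)).elim
  | succ n ih =>
    intro hok h
    rw [okN, Bool.and_eq_true, Bool.and_eq_true, Bool.and_eq_true, Nat.blt_eq, Nat.blt_eq,
      Bool.not_eq_true'] at hok
    obtain ⟨⟨⟨h1, h2⟩, h3⟩, h4⟩ := hok
    have h3' : W.getD n 0 ≠ W.getD (n + 1) 0 := by
      intro he
      rw [he] at h3
      have : Nat.beq (W.getD (n + 1) 0) (W.getD (n + 1) 0) = true := by rw [Nat.beq_eq]
      rw [this] at h3
      exact Bool.noConfusion h3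
    rw [negN, tru_addl hinj false h1 h2 h3']
    by_cases hc : pos (W.getD n 0) < pos (W.getD (n + 1) 0)
    · right
      refine ih h4 (fun hall => h (fun i hi => ?_))
      rcases Nat.lt_succ_iff_lt_or_eq.1 hi with hi | hi
      · exact hall i hi
      · rw [hi]; exact hc
    · left
      exact hc

/-- axioms on the order -/
inductive OAx where
  | P (a b : ℕ)
  | F (i : ℕ)
  | T (a b c : ℕ)

/-- the clause of an axiom -/
def ocl : OAx → List ℕ × List ℕ
  | .P a b =>
    match Nat.blt a 66 && Nat.blt b 66 && !(Nat.beq a b) &&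
      Nat.beq (Nat.land (em a) (em b)) (em a) with
    | true => addl true a b ([], [])
    | false => ([0], [0])
  | .F i =>
    match Nat.blt i 29 && okN (seqs.getD i []) 6 with
    | true => negN (seqs.getD i []) 6
    | false => ([0], [0])
  | .T a b c =>
    match Nat.blt a 66 && Nat.blt b 66 && Nat.blt c 66 && !(Nat.beq a b) && !(Nat.beq b c) &&
      !(Nat.beq a c) with
    | true => addl false a b (addl false b c (addl true a c ([], [])))
    | false => ([0], [0])

theorem tru_taut (vl : ℕ → Prop) : Tru vl ([0], [0]) := taut_valid vl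

theorem ne_of_beq_false {a b : ℕ} (h : Nat.beq a b = false) : a ≠ b := by
  intro he
  have : Nat.beq a b = true := by rw [Nat.beq_eq]; exact he
  rw [this] at h
  exact Bool.noConfusion h

theorem ocl_valid {pos : ℕ → ℕ} (hinj : ∀ a b, a < 66 → b < 66 → pos a = pos b → a = b)
    (hsub : ∀ a b, a < 66 → b < 66 → a ≠ b → Nat.beq (Nat.land (em a) (em b)) (em a) = true →
      pos a < pos b)
    (himp : ∀ i < 29, Imp pos (seqs.getD i [])) (x : OAx) : Tru (oval pos) (ocl x) := by
  cases x with
  | P a b =>
    rw [ocl]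
    split
    · rename_i h
      simp only [Bool.and_eq_true, Nat.blt_eq, Bool.not_eq_true'] at h
      obtain ⟨⟨⟨ha, hb⟩, hab⟩, hs⟩ := h
      have hab' := ne_of_beq_false hab
      rw [tru_addl hinj true ha hb hab']
      exact Or.inl (hsub a b ha hb hab' hs)
    · exact tru_taut _
  | F i =>
    rw [ocl]
    split
    · rename_i h
      simp only [Bool.and_eq_true, Nat.blt_eq] at h
      exact negN_valid hinj _ 6 h.2 (himp i h.1)
    · exact tru_taut _
  | T a b c =>
    rw [ocl]
    split
    · rename_i h
      simp only [Bool.and_eq_true, Nat.blt_eq, Bool.not_eq_true'] at h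
      obtain ⟨⟨⟨⟨⟨ha, hb⟩, hc⟩, hab⟩, hbc⟩, hac⟩ := h
      have hab' := ne_of_beq_false hab
      have hbc' := ne_of_beq_false hbc
      have hac' := ne_of_beq_false hac
      rw [tru_addl hinj false ha hb hab', tru_addl hinj false hb hc hbc',
        tru_addl hinj true ha hc hac']
      simp only [litT]
      by_cases h1 : pos a < pos b
      · by_cases h2 : pos b < pos c
        · exact Or.inr (Or.inr (Or.inl (h1.trans h2)))
        · exact Or.inr (Or.inl h2)
      · exact Or.inl h1
    · exact tru_taut _

/-- the check of the order certificate -/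
def ocheck (as : List OAx) (st : List (List ℕ × List ℕ × List ℕ)) : Bool :=
  run (build ocl as 0 .nil) as.length st

theorem ocheck_sound {as : List OAx} {st : List (List ℕ × List ℕ × List ℕ)}
    (h : ocheck as st = true) {pos : ℕ → ℕ}
    (hinj : ∀ a b, a < 66 → b < 66 → pos a = pos b → a = b)
    (hsub : ∀ a b, a < 66 → b < 66 → a ≠ b → Nat.beq (Nat.land (em a) (em b)) (em a) = true →
      pos a < pos b)
    (himp : ∀ i < 29, Imp pos (seqs.getD i [])) : False := by
  refine run_sound (oval pos) st _ _ ?_ h
  refine build_valid _ _ (fun a => (valid_iff _ _).2 (ocl_valid hinj hsub himp a)) as 0 .nil ?_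
  intro i
  exact valid_taut _

end Q119.TP
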