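import Pool.Agent.Q119.TP.Order

/-!
# The order certificate
-/

set_option autoImplicit false

namespace Q119.TP

theorem order_cert : ocheck
    [.P 10 13, .P 11 17, .P 13 21, .P 14 17, .P 15 21, .P 16 22, .P 17 23, .P 18 22, .P 19 23,
     .P 19 24, .P 20 26, .P 21 26, .P 21 27, .P 22 26, .P 22 28, .P 22 37, .P 22 39, .P 23 27,
     .P 24 28, .P 26 31, .P 26 37, .P 26 39, .P 27 32, .P 28 37, .P 28 39, .P 32 37, .P 32 38,
     .P 32 39, .P 37 41, .P 38 42, .P 38 44, .P 39 45, .P 42 46, .P 42 48, .P 44 48, .P 44 50,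
     .P 48 51, .P 48 54, .F 0, .F 1, .F 2, .F 3, .F 4, .F 5, .F 6, .F 7, .F 8, .F 9, .F 10,
     .F 11, .F 12, .F 13, .F 14, .F 15, .F 16, .F 17, .F 18, .F 19, .F 20, .F 21, .F 22, .F 23,
     .F 24, .F 25, .F 26, .F 27, .F 28, .T 19 21 26, .T 19 22 26, .T 19 24 21, .T 22 23 27,
     .T 22 28 27, .T 22 37 33, .T 22 39 33, .T 26 37 33, .T 26 39 33, .T 28 37 33, .T 28 39 33,
     .T 32 37 33, .T 32 39 33]
    [([], [2215, 2480, 3084], [29, 32, 37, 38]),
     ([3090], [2215, 2480], [29, 33, 37, 39]),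
     ([2547, 3351], [2217], [30, 34, 36, 40]),
     ([1743], [1408, 1479], [0, 2, 19, 41]),
     ([2547], [2217, 3218, 3351], [30, 34, 42]),
     ([3084], [2215, 2480, 3090], [29, 33, 43]),
     ([2547, 3218], [2217], [30, 35, 36, 44]),
     ([1009], [1007, 1810, 1881], [6, 17, 45]),
     ([2480], [2481, 2615, 2751], [22, 26, 46]),
     ([], [1007, 1141, 1810, 1881], [8, 17, 47]),
     ([2481], [2547, 2751], [22, 26, 28, 48]),
     ([2481, 2751], [2547, 2487], [22, 26, 49]),
     ([2480, 2751], [2481], [22, 26, 31, 50]),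
     ([1544], [1274, 2145], [10, 17, 22, 51]),
     ([1141, 1007, 1743], [1749], [4, 12, 52]),
     ([1007, 1475], [1409, 1485], [3, 4, 53]),
     ([2480, 2615], [], [22, 26, 28, 31, 54]),
     ([1141], [1009, 1810, 1881], [6, 17, 55]),
     ([2487], [2547], [22, 26, 31, 28, 56]),
     ([1274], [1544, 1743, 2145], [8, 22, 57]),
     ([1343], [1743, 2145], [8, 10, 22, 58]),
     ([1274, 1544], [1280, 2145], [17, 22, 59]),
     ([1276], [1810, 1881], [5, 8, 17, 60]),
     ([1810], [1410, 2145], [4, 18, 22, 61]),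
     ([1008, 1408, 1743], [1012, 1749], [12, 62]),
     ([1012, 1743], [1749], [7, 4, 12, 63]),
     ([1408, 1743], [1008, 1749], [7, 12, 64]),
     ([1409], [1141, 1408, 1485], [1, 8, 65]),
     ([], [1274, 1343, 1544, 1743, 2145], [22, 66]),
     ([1280], [1275], [11, 67]),
     ([1280], [1276], [13, 68]),
     ([1410, 1275], [], [9, 69]),
     ([1479], [1475], [17, 70]),
     ([1810, 1479], [], [14, 71]),
     ([2215, 1485], [], [15, 72]),
     ([2217, 1485], [], [16, 73]),
     ([2215, 1749], [], [20, 74]),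
     ([2217, 1749], [], [21, 75]),
     ([2215, 1881], [], [23, 76]),
     ([2217, 1881], [], [24, 77]),
     ([2215, 2145], [], [25, 78]),
     ([2217, 2145], [], [27, 79]),
     ([], [1544, 1743, 2145], [100, 99, 108]),
     ([1544], [1280, 2145], [93, 101]),
     ([1408, 1743], [1749], [105, 106, 104]),
     ([], [1007, 1810, 1881], [87, 89, 97]),
     ([2215], [1810], [120, 118, 116, 114, 102, 110, 123, 122, 124, 83, 112, 125, 94, 95, 107]),
     ([2215], [], [116, 120, 126, 103, 113, 111, 109, 123, 122, 124, 83]),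
     ([1810, 2217], [], [121, 117, 103, 113, 111, 109, 123, 122, 124, 83]),
     ([2217], [], [115, 117, 119, 121, 128, 102, 125, 110, 123, 122, 124, 94, 83, 107, 112, 95]),
     ([2480], [2751, 2547], [96, 88, 90]),
     ([2480], [2547], [98, 130, 92, 91]),
     ([3084], [2480], [127, 85, 81]),
     ([], [2480], [127, 80, 132]),
     ([], [2547], [133, 131]),
     ([3218], [], [134, 129, 86]),
     ([3351], [], [134, 129, 82]),
     ([], [], [134, 135, 129, 136, 84])] = true := by
  decide +kernel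

end Q119.TP
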