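import Pool.Agent.Q119.TP.Enum

/-!
# Properties of the tables, checked by computation
-/

set_option autoImplicit false

namespace Q119.TP

theorem lt_of_testBit {m n j : ℕ} (h : m < 2 ^ n) (hj : m.testBit j = true) : j < n := by
  by_contra hcon
  have h1 := Nat.ge_two_pow_of_testBit hj
  have h2 : 2 ^ n ≤ 2 ^ j := Nat.pow_le_pow_right (by norm_num) (by omega)
  omega

theorem all_range {n : ℕ} {f : ℕ → Bool} (h : (List.range n).all f = true) {i : ℕ} (hi : i < n) :
    f i = true := List.all_eq_true.1 h i (List.mem_range.2 hi)

theorem sub_iff (a b : ℕ) : Nat.beq (Nat.land a b) a = true ↔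
    ∀ j, a.testBit j = true → b.testBit j = true := by
  rw [Nat.beq_eq]
  change a &&& b = a ↔ _
  constructor
  · intro h j hj
    have := congrArg (fun x => x.testBit j) h
    simp only [Nat.testBit_and, hj, Bool.true_and] at this
    exact this
  · intro h
    apply Nat.eq_of_testBit_eq
    intro j
    rw [Nat.testBit_and]
    cases hj : a.testBit j with
    | false => simp
    | true => simp [h j hj]

/-! ### the grid -/

theorem needP_lt_aux : ((List.range 9).all (fun i => Nat.blt (needP i) (2 ^ i))) = true := by
  decide +kernel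

theorem needP_lt (i j : ℕ) (h : (needP i).testBit j = true) : j < i := by
  by_cases hi : i < 9
  · have h1 := all_range needP_lt_aux hi
    rw [Nat.blt_eq] at h1
    exact lt_of_testBit h1 h
  · have : needP i = 0 := by
      unfold needP
      rw [List.getD_eq_default]
      simp only [List.length_cons, List.length_nil]
      omega
    rw [this] at h
    simp at h

theorem needP_sub_aux : ((List.range 9).all (fun i => (List.range 9).all (fun j =>
    !(needP i).testBit j || (Nat.ble (j / 3) (i / 3) && Nat.ble (j % 3) (i % 3))))) = true := by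
  decide +kernel

theorem needP_sub (i j : ℕ) (hi : i < 9) (h : (needP i).testBit j = true) :
    j / 3 ≤ i / 3 ∧ j % 3 ≤ i % 3 := by
  have hj := needP_lt i j h
  have h1 := all_range (all_range needP_sub_aux hi) (show j < 9 by omega)
  simp only [h, Bool.not_true, Bool.false_or, Bool.and_eq_true, Nat.ble_eq] at h1
  exact h1

theorem enumP_aux : ((enum needP 9).all (fun m => tabD.any (fun x => Nat.beq x m))) = true := by
  decide +kernel

theorem mem_tabD_of_closed (m : ℕ) (hm : m < 2 ^ 9)
    (hc : ∀ i, m.testBit i = true → ∀ j, j / 3 ≤ i / 3 → j % 3 ≤ i % 3 → m.testBit j = true) :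
    ∃ A < 20, m = dm A := by
  have h1 := mem_enum needP needP_lt m (fun i hi j hj => by
    have h9 := lt_of_testBit hm hi
    obtain ⟨h2, h3⟩ := needP_sub i j h9 hj
    exact hc i hi j h2 h3) 9
  rw [Nat.mod_eq_of_lt hm] at h1
  have h2 := List.all_eq_true.1 enumP_aux m h1
  obtain ⟨x, hx, hxm⟩ := List.any_eq_true.1 h2
  rw [Nat.beq_eq] at hxm
  subst hxm
  obtain ⟨A, hA, hAx⟩ := List.mem_iff_getElem.1 hx
  refine ⟨A, hA, ?_⟩
  rw [dm, List.getD_eq_getElem _ _ hA]
  exact hAx.symm

theorem dm_lt_aux : ((List.range 20).all (fun A => Nat.blt (dm A) (2 ^ 9))) = true := by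
  decide +kernel

theorem dm_lt {A : ℕ} (hA : A < 20) : dm A < 2 ^ 9 := by
  have h := all_range dm_lt_aux hA
  rwa [Nat.blt_eq] at h

theorem dm_closed_aux : ((List.range 20).all (fun A => (List.range 9).all (fun p =>
    (List.range 9).all (fun q =>
      !(dm A).testBit p || !(Nat.ble (q / 3) (p / 3) && Nat.ble (q % 3) (p % 3)) ||
        (dm A).testBit q)))) = true := by
  decide +kernel

theorem dm_closed {A p q : ℕ} (hA : A < 20) (hq : q < 9) (hp : (dm A).testBit p = true)
    (h1 : q / 3 ≤ p / 3) (h2 : q % 3 ≤ p % 3) : (dm A).testBit q = true := by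
  have hp9 := lt_of_testBit (dm_lt hA) hp
  have h := all_range (all_range (all_range dm_closed_aux hA) hp9) hq
  have e1 : Nat.ble (q / 3) (p / 3) = true := by rw [Nat.ble_eq]; exact h1
  have e2 : Nat.ble (q % 3) (p % 3) = true := by rw [Nat.ble_eq]; exact h2
  rw [hp, e1, e2] at h
  simpa using h

/-! ### families -/

theorem needD_lt_aux : ((List.range 20).all (fun i => Nat.blt (needD i) (2 ^ i))) = true := by
  decide +kernel

theorem needD_lt (i j : ℕ) (h : (needD i).testBit j = true) : j < i ∧ i < 20 := by
  by_cases hi : i < 20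
  · have h1 := all_range needD_lt_aux hi
    rw [Nat.blt_eq] at h1
    exact ⟨lt_of_testBit h1 h, hi⟩
  · have : needD i = 0 := by
      unfold needD
      rw [List.getD_eq_default]
      simp only [List.length_cons, List.length_nil]
      omega
    rw [this] at h
    simp at h

theorem needD_sub_aux : ((List.range 20).all (fun i => (List.range 20).all (fun j =>
    !(needD i).testBit j || Nat.beq (Nat.land (dm j) (dm i)) (dm j)))) = true := by
  decide +kernel

theorem needD_sub (i j : ℕ) (h : (needD i).testBit j = true) :
    Nat.beq (Nat.land (dm j) (dm i)) (dm j) = true := by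
  obtain ⟨hj, hi⟩ := needD_lt i j h
  have h1 := all_range (all_range needD_sub_aux hi) (show j < 20 by omega)
  simpa [h] using h1

theorem enumD_aux : ((enum needD 20).all (fun m => tabE.any (fun x => Nat.beq x m))) = true := by
  decide +kernel

theorem tabE_length : tabE.length = 66 := by decide

theorem mem_tabE_of_closed (m : ℕ) (hm : m < 2 ^ 20)
    (hc : ∀ i, m.testBit i = true → ∀ j < 20, Nat.beq (Nat.land (dm j) (dm i)) (dm j) = true →
      m.testBit j = true) :
    ∃ a < 66, m = em a := by
  have h1 := mem_enum needD (fun i j h => (needD_lt i j h).1) m (fun i hi j hj => by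
    have h9 := lt_of_testBit hm hi
    have h2 := needD_lt i j hj
    exact hc i hi j (by omega) (needD_sub i j hj)) 20
  rw [Nat.mod_eq_of_lt hm] at h1
  have h2 := List.all_eq_true.1 enumD_aux m h1
  obtain ⟨x, hx, hxm⟩ := List.any_eq_true.1 h2
  rw [Nat.beq_eq] at hxm
  subst hxm
  obtain ⟨A, hA, hAx⟩ := List.mem_iff_getElem.1 hx
  refine ⟨A, by rw [tabE_length] at hA; exact hA, ?_⟩
  rw [em, List.getD_eq_getElem _ _ hA]
  exact hAx.symm

theorem em_lt_aux : ((List.range 66).all (fun a => Nat.blt (em a) (2 ^ 20))) = true := by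
  decide +kernel

theorem em_lt {a : ℕ} (ha : a < 66) : em a < 2 ^ 20 := by
  have h := all_range em_lt_aux ha
  rwa [Nat.blt_eq] at h

theorem em_closed_aux : ((List.range 66).all (fun a => (List.range 20).all (fun i =>
    (List.range 20).all (fun j =>
      !(em a).testBit i || !(Nat.beq (Nat.land (dm j) (dm i)) (dm j)) ||
        (em a).testBit j)))) = true := by
  decide +kernel

theorem em_closed {a i j : ℕ} (ha : a < 66) (hj : j < 20) (hi : (em a).testBit i = true)
    (h1 : Nat.beq (Nat.land (dm j) (dm i)) (dm j) = true) : (em a).testBit j = true := by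
  have hp9 := lt_of_testBit (em_lt ha) hi
  have h := all_range (all_range (all_range em_closed_aux ha) hp9) hj
  rw [hi, h1] at h
  simpa using h

theorem em_order_aux : ((List.range 66).all (fun y => (List.range y).all (fun x =>
    !(Nat.beq (Nat.land (em y) (em x)) (em y))))) = true := by
  decide +kernel

/-- the list is a linear extension -/
theorem em_order {x y : ℕ} (hxy : x < y) (hy : y < 66) :
    Nat.beq (Nat.land (em y) (em x)) (em y) = false := by
  have h := all_range (all_range em_order_aux hy) hxy
  simpa using h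

end Q119.TP
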