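import Pool.Agent.Q119.TP.Tables

/-!
# The two-level structure of colourings of quadruples without monochromatic paths of length three

`f w x y z` is the colour of the quadruple `w < x < y < z`. `lev f i x y z` is the length of the
longest path of colour `i` which ends in the triple `x y z`; `gm f y z` is the closed set of cells
below the pairs of levels of the triples `x y z`; `hm f z` is the family of the closed sets
contained in some `gm f y z`.
-/

set_option autoImplicit false

namespace Q119.TP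

variable (f : ℕ → ℕ → ℕ → ℕ → Fin 2)

/-- no monochromatic monotone path of length three in `{1, …, N}` -/
def NoPath (N : ℕ) : Prop := ∀ u v w x y z, 1 ≤ u → u < v → v < w → w < x → x < y → y < z → z ≤ N →
  ∀ i, f u v w x = i → f v w x y = i → f w x y z = i → False

/-- a path of length at least one and colour `i` ends in `x y z` -/
def P1 (i : Fin 2) (x y z : ℕ) : Prop := ∃ w, 1 ≤ w ∧ w < x ∧ f w x y z = i

/-- a path of length at least two and colour `i` ends in `x y z` -/
def P2 (i : Fin 2) (x y z : ℕ) : Prop := ∃ w, 1 ≤ w ∧ w < x ∧ f w x y z = i ∧ P1 f i w x y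

open Classical in
/-- the length of the longest path of colour `i` which ends in `x y z` -/
noncomputable def lev (i : Fin 2) (x y z : ℕ) : ℕ :=
  if P2 f i x y z then 2 else if P1 f i x y z then 1 else 0

variable {f}

theorem P1_of_P2 {i : Fin 2} {x y z : ℕ} (h : P2 f i x y z) : P1 f i x y z := by
  obtain ⟨w, h1, h2, h3, -⟩ := h
  exact ⟨w, h1, h2, h3⟩

theorem lev_le (i : Fin 2) (x y z : ℕ) : lev f i x y z ≤ 2 := by
  unfold lev
  split_ifs <;> omega

theorem one_le_lev {i : Fin 2} {x y z : ℕ} : 1 ≤ lev f i x y z ↔ P1 f i x y z := by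
  unfold lev
  split_ifs with h1 h2
  · exact ⟨fun _ => P1_of_P2 h1, fun _ => by omega⟩
  · exact ⟨fun _ => h2, fun _ => le_rfl⟩
  · exact ⟨fun h => by omega, fun h => (h2 h).elim⟩

theorem two_le_lev {i : Fin 2} {x y z : ℕ} : 2 ≤ lev f i x y z ↔ P2 f i x y z := by
  unfold lev
  split_ifs with h1 h2
  · exact ⟨fun _ => h1, fun _ => le_rfl⟩
  · exact ⟨fun h => by omega, fun h => (h1 h).elim⟩
  · exact ⟨fun h => by omega, fun h => (h1 h).elim⟩

theorem lev_lt {N : ℕ} (hno : NoPath f N) {w x y z : ℕ} {i : Fin 2} (hw : 1 ≤ w) (hwx : w < x)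
    (hxy : x < y) (hyz : y < z) (hz : z ≤ N) (h : f w x y z = i) :
    lev f i w x y < lev f i x y z := by
  have h1 : P1 f i x y z := ⟨w, hw, hwx, h⟩
  have h2 := lev_le (f := f) i w x y
  rcases Nat.lt_or_ge (lev f i w x y) 1 with h3 | h3
  · have := one_le_lev.2 h1
    omega
  rcases Nat.lt_or_ge (lev f i w x y) 2 with h4 | h4
  · have : P2 f i x y z := ⟨w, hw, hwx, h, one_le_lev.1 h3⟩
    have := two_le_lev.2 this
    omega
  · obtain ⟨v, hv1, hv2, hv3, u, hu1, hu2, hu3⟩ := two_le_lev.1 h4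
    exact (hno u v w x y z hu1 hu2 hv2 hwx hxy hyz hz i hu3 hv3 h).elim

variable (f)

/-- the cell `p` is below the levels of some triple `x y z` -/
def Gp (y z p : ℕ) : Prop := ∃ x, 1 ≤ x ∧ x < y ∧ p / 3 ≤ lev f 0 x y z ∧ p % 3 ≤ lev f 1 x y z

open Classical in
/-- the mask of `Gp` -/
noncomputable def gm (y z : ℕ) : ℕ := Nat.ofBits (fun p : Fin 9 => decide (Gp f y z p))

variable {f}

theorem gm_lt (y z : ℕ) : gm f y z < 2 ^ 9 := Nat.ofBits_lt_two_pow _

theorem testBit_gm {y z p : ℕ} : (gm f y z).testBit p = true ↔ p < 9 ∧ Gp f y z p := by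
  classical
  by_cases hp : p < 9
  · unfold gm
    rw [Nat.testBit_ofBits_lt _ _ hp]
    simp [hp]
  · constructor
    · intro h
      exact (hp (lt_of_testBit (gm_lt y z) h)).elim
    · intro h
      exact (hp h.1).elim

theorem exists_dm (y z : ℕ) : ∃ A < 20, gm f y z = dm A := by
  refine mem_tabD_of_closed _ (gm_lt y z) ?_
  intro i hi j h1 h2
  rw [testBit_gm] at hi ⊢
  obtain ⟨h9, x, hx1, hx2, hx3, hx4⟩ := hi
  exact ⟨by omega, x, hx1, hx2, h1.trans hx3, h2.trans hx4⟩

theorem testBit_gm_lev {x y z : ℕ} (hx : 1 ≤ x) (hxy : x < y) {p : ℕ} (hp : p < 9)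
    (h0 : p / 3 ≤ lev f 0 x y z) (h1 : p % 3 ≤ lev f 1 x y z) : (gm f y z).testBit p = true :=
  testBit_gm.2 ⟨hp, x, hx, hxy, h0, h1⟩

/-- the levels of `y z w` are not in `gm y z` -/
theorem not_gm {N : ℕ} (hno : NoPath f N) {y z w p : ℕ} (hyz : y < z) (hzw : z < w)
    (hw : w ≤ N) (h0 : lev f 0 y z w ≤ p / 3) (h1 : lev f 1 y z w ≤ p % 3) :
    (gm f y z).testBit p = false := by
  by_contra hcon
  rw [Bool.not_eq_false, testBit_gm] at hcon
  obtain ⟨-, x, hx1, hx2, hx3, hx4⟩ := hcon
  have key : f x y z w = 0 ∨ f x y z w = 1 := by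
    generalize f x y z w = a
    revert a
    decide
  rcases key with h | h
  · have := lev_lt hno hx1 hx2 hyz hzw hw h
    omega
  · have := lev_lt hno hx1 hx2 hyz hzw hw h
    omega

/-- `gm z w` is not contained in `gm y z` -/
theorem gm_not_sub {N : ℕ} (hno : NoPath f N) {y z w : ℕ} (hy : 1 ≤ y) (hyz : y < z)
    (hzw : z < w) (hw : w ≤ N) : Nat.beq (Nat.land (gm f z w) (gm f y z)) (gm f z w) = false := by
  by_contra hcon
  rw [Bool.not_eq_false, sub_iff] at hcon
  have e0 := lev_le (f := f) 0 y z w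
  have e1 := lev_le (f := f) 1 y z w
  have h1 : (gm f z w).testBit (3 * lev f 0 y z w + lev f 1 y z w) = true :=
    testBit_gm_lev hy hyz (by omega) (by omega) (by omega)
  have h2 := hcon _ h1
  rw [not_gm hno hyz hzw hw (by omega) (by omega)] at h2
  exact Bool.noConfusion h2

variable (f)

/-- the closed set number `A` is contained in some `gm y z` -/
def Hp (z A : ℕ) : Prop := ∃ y, 1 ≤ y ∧ y < z ∧ Nat.beq (Nat.land (dm A) (gm f y z)) (dm A) = true

open Classical in
/-- the mask of `Hp` -/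
noncomputable def hm (z : ℕ) : ℕ := Nat.ofBits (fun A : Fin 20 => decide (Hp f z A))

variable {f}

theorem hm_lt (z : ℕ) : hm f z < 2 ^ 20 := Nat.ofBits_lt_two_pow _

theorem testBit_hm {z A : ℕ} : (hm f z).testBit A = true ↔ A < 20 ∧ Hp f z A := by
  classical
  by_cases hp : A < 20
  · unfold hm
    rw [Nat.testBit_ofBits_lt _ _ hp]
    simp [hp]
  · constructor
    · intro h
      exact (hp (lt_of_testBit (hm_lt z) h)).elim
    · intro h
      exact (hp h.1).elim

theorem exists_em (z : ℕ) : ∃ a < 66, hm f z = em a := by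
  refine mem_tabE_of_closed _ (hm_lt z) ?_
  intro i hi j hj hji
  rw [testBit_hm] at hi ⊢
  obtain ⟨h9, y, hy1, hy2, hy3⟩ := hi
  refine ⟨hj, y, hy1, hy2, ?_⟩
  rw [sub_iff] at hji hy3 ⊢
  exact fun t ht => hy3 t (hji t ht)

/-- the set `gm y z` is in the family of `z` and not in that of `y` -/
theorem exists_gm {N : ℕ} (hno : NoPath f N) {y z : ℕ} (hy : 1 ≤ y) (hyz : y < z) (hz : z ≤ N) :
    ∃ A < 20, gm f y z = dm A ∧ (hm f z).testBit A = true ∧ (hm f y).testBit A = false := by
  obtain ⟨A, hA, he⟩ := exists_dm (f := f) y z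
  refine ⟨A, hA, he, ?_, ?_⟩
  · rw [testBit_hm]
    refine ⟨hA, y, hy, hyz, ?_⟩
    rw [sub_iff, he]
    exact fun t ht => ht
  · by_contra hcon
    rw [Bool.not_eq_false, testBit_hm] at hcon
    obtain ⟨-, x, hx1, hx2, hx3⟩ := hcon
    rw [← he] at hx3
    rw [gm_not_sub hno hx1 hx2 hyz hz] at hx3
    exact Bool.noConfusion hx3

theorem hm_not_sub {N : ℕ} (hno : NoPath f N) {y z : ℕ} (hy : 1 ≤ y) (hyz : y < z) (hz : z ≤ N) :
    Nat.beq (Nat.land (hm f z) (hm f y)) (hm f z) = false := by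
  obtain ⟨A, -, -, h1, h2⟩ := exists_gm hno hy hyz hz
  by_contra hcon
  rw [Bool.not_eq_false, sub_iff] at hcon
  rw [hcon A h1] at h2
  exact Bool.noConfusion h2

theorem hm_injOn {N : ℕ} (hno : NoPath f N) {y z : ℕ} (hy : 1 ≤ y) (hyN : y ≤ N) (hz : 1 ≤ z)
    (hzN : z ≤ N) (h : hm f y = hm f z) : y = z := by
  rcases lt_trichotomy y z with h1 | h1 | h1
  · have := hm_not_sub hno hy h1 hzN
    rw [h] at this
    have h2 : Nat.beq (Nat.land (hm f z) (hm f z)) (hm f z) = true := by
      rw [sub_iff]; exact fun _ h => h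
    rw [h2] at this
    exact Bool.noConfusion this
  · exact h1
  · have := hm_not_sub hno hz h1 hyN
    rw [h] at this
    have h2 : Nat.beq (Nat.land (hm f z) (hm f z)) (hm f z) = true := by
      rw [sub_iff]; exact fun _ h => h
    rw [h2] at this
    exact Bool.noConfusion this

/-- the number of vertices is at most `66` -/
theorem le_66 {N : ℕ} (hno : NoPath f N) : N ≤ 66 := by
  choose a ha1 ha2 using fun z => exists_em (f := f) z
  have hinj : Set.InjOn a (Finset.Icc 1 N) := by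
    intro y hy z hz h
    rw [Finset.coe_Icc, Set.mem_Icc] at hy hz
    refine hm_injOn hno hy.1 hy.2 hz.1 hz.2 ?_
    rw [ha2 y, ha2 z, h]
  have h1 : (Finset.Icc 1 N).card ≤ (Finset.range 66).card :=
    Finset.card_le_card_of_injOn a (fun z _ => Finset.mem_coe.2 (Finset.mem_range.2 (ha1 z))) hinj
  rw [Nat.card_Icc, Finset.card_range] at h1
  omega

/-- with `66` vertices all families occur -/
theorem exists_pos (hno : NoPath f 66) : ∀ a < 66, ∃ z, 1 ≤ z ∧ z ≤ 66 ∧ hm f z = em a := by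
  choose a ha1 ha2 using fun z => exists_em (f := f) z
  have hinj : Set.InjOn a (Finset.Icc 1 66) := by
    intro y hy z hz h
    rw [Finset.coe_Icc, Set.mem_Icc] at hy hz
    refine hm_injOn hno hy.1 hy.2 hz.1 hz.2 ?_
    rw [ha2 y, ha2 z, h]
  have h1 : (Finset.Icc 1 66).image a = Finset.range 66 := by
    refine Finset.eq_of_subset_of_card_le ?_ ?_
    · intro b hb
      obtain ⟨z, -, rfl⟩ := Finset.mem_image.1 hb
      exact Finset.mem_range.2 (ha1 z)
    · rw [Finset.card_image_of_injOn hinj, Nat.card_Icc, Finset.card_range]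
  intro b hb
  rw [← Finset.mem_range, ← h1] at hb
  obtain ⟨z, hz, rfl⟩ := Finset.mem_image.1 hb
  rw [Finset.mem_Icc] at hz
  exact ⟨z, hz.1, hz.2, ha2 z⟩

end Q119.TP
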